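import Pool.Agent.Lib.MP_91138c_lc.Count

/-!
# No abelian mirror code has n ≤ 12, k ≥ 5, d ≥ 3
-/

set_option linter.unusedSectionVars false

namespace Pool.Agent.Lib.MP_91138c_lc

open Finset Module

variable {H : Type*} [CommGroup H] [Fintype H] [DecidableEq H] {a b : Fn H}

theorem tr_pow_iter (g : H) (k : ℕ) (f : Fn H) : (fun x => tr g x)^[k] f = tr (g ^ k) f := by
  induction k generalizing f with
  | zero => simp
  | succ k ih => rw [Function.iterate_succ_apply, ih, tr_tr, ← pow_succ]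

/-- Fixed points modulo a prime. -/
theorem fix_modEq {g : H} {p : ℕ} [Fact p.Prime] (hgp : g ^ p = 1)
    (W : Submodule (ZMod 2) (Fn H)) (hW : ∀ f ∈ W, tr g f ∈ W) :
    2 ^ finrank (ZMod 2) W ≡
      2 ^ finrank (ZMod 2) (W ⊓ LinearMap.ker (N g) : Submodule (ZMod 2) (Fn H)) [MOD p] := by
  classical
  let F : Function.End W := fun x => ⟨tr g x.1, hW _ x.2⟩
  have hF : ∀ (k : ℕ) (x : W), ((F ^ k) x).1 = tr (g ^ k) x.1 := by
    intro k
    induction k with
    | zero => intro x; rw [pow_zero, pow_zero, tr_one]; rfl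
    | succ k ih =>
      intro x
      rw [pow_succ, pow_succ]
      have : (F ^ k * F) x = (F ^ k) (F x) := rfl
      rw [this, ih (F x), ← tr_tr]
  have h1 : F ^ p ^ 1 = 1 := by
    funext x
    apply Subtype.ext
    rw [pow_one, hF p x, hgp, tr_one]
    rfl
  haveI : Fintype W := Fintype.ofFinite W
  haveI : Fintype (W ⊓ LinearMap.ker (N g) : Submodule (ZMod 2) (Fn H)) := Fintype.ofFinite _
  have h2 := Equiv.Perm.card_fixedPoints_modEq h1
  rw [← card_submodule, ← card_submodule, Nat.card_eq_fintype_card, Nat.card_eq_fintype_card]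
  refine h2.trans ?_
  have e : Function.fixedPoints F ≃ (W ⊓ LinearMap.ker (N g) : Submodule (ZMod 2) (Fn H)) :=
    { toFun := fun x => ⟨x.1.1, x.1.2, mem_ker_N.mpr (congrArg Subtype.val x.2)⟩
      invFun := fun x => ⟨⟨x.1, x.2.1⟩, Subtype.ext (mem_ker_N.mp x.2.2)⟩
      left_inv := fun _ => rfl
      right_inv := fun _ => rfl }
  rw [Fintype.card_congr e]

theorem orderOf_prime_pow {g : H} {p : ℕ} (h : orderOf g = p) : g ^ p = 1 := by
  rw [← h, pow_orderOf_eq_one]

theorem Good.ne_eleven (hg : Good a b) : Fintype.card H ≠ 11 := by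
  intro hn
  haveI : Fact (Nat.Prime 11) := ⟨by norm_num⟩
  obtain ⟨g, hgo⟩ := exists_prime_orderOf_dvd_card (G := H) 11 (by rw [hn])
  have h1 := hg.count (by omega)
  have h2 := hg.finrank_J
  have h3 : finrank (ZMod 2) (J a b) = 6 := by
    have h4 : 2 ^ 5 < 2 ^ finrank (ZMod 2) (J a b) := by rw [hn] at h1; omega
    have h5 := (Nat.pow_lt_pow_iff_right (by norm_num : 1 < 2)).mp h4
    omega
  have h4 := fix_modEq (orderOf_prime_pow hgo) (J a b) (fun f hf => J_tr g hf)
  have h5 := finrank_ker_N (H := H) g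
  have h6 : finrank (ZMod 2) (J a b ⊓ LinearMap.ker (N g) : Submodule (ZMod 2) (Fn H)) ≤
      finrank (ZMod 2) (LinearMap.ker (N g)) := Submodule.finrank_mono inf_le_right
  rw [hgo, hn] at h5
  have h7 : finrank (ZMod 2) (J a b ⊓ LinearMap.ker (N g) : Submodule (ZMod 2) (Fn H)) ≤ 1 := by
    omega
  rw [h3] at h4
  generalize finrank (ZMod 2) (J a b ⊓ LinearMap.ker (N g) : Submodule (ZMod 2) (Fn H)) = k at *
  interval_cases k
  · exact absurd h4 (by decide)
  · exact absurd h4 (by decide)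

theorem N_mem {W : Submodule (ZMod 2) (Fn H)} {h : H} (hW : ∀ f ∈ W, tr h f ∈ W) {f : Fn H}
    (hf : f ∈ W) : N h f ∈ W := by
  rw [N_apply]; exact Submodule.add_mem _ hf (hW f hf)

theorem two_mul_finrank_map {W : Submodule (ZMod 2) (Fn H)} {h : H} (hh : h * h = 1)
    (hW : ∀ f ∈ W, tr h f ∈ W) :
    2 * finrank (ZMod 2) (W.map (N h)) ≤ finrank (ZMod 2) W ∧
    finrank (ZMod 2) W ≤
      2 * finrank (ZMod 2) (W ⊓ LinearMap.ker (N h) : Submodule (ZMod 2) (Fn H)) := by
  have h1 := finrank_map_add (N h) W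
  have h2 : W.map (N h) ≤ W ⊓ LinearMap.ker (N h) := by
    rintro _ ⟨f, hf, rfl⟩
    exact ⟨N_mem hW hf, N_N hh f⟩
  have h3 := Submodule.finrank_mono h2
  omega

theorem Good.ne_ten (hg : Good a b) : Fintype.card H ≠ 10 := by
  intro hn
  haveI : Fact (Nat.Prime 2) := ⟨by norm_num⟩
  obtain ⟨h, hho⟩ := exists_prime_orderOf_dvd_card (G := H) 2 (by rw [hn]; norm_num)
  have hh1 : h ≠ 1 := fun h => by rw [h, orderOf_one] at hho; omega
  have hh2 : h * h = 1 := by rw [← pow_two]; exact orderOf_prime_pow hho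
  have hinv : h⁻¹ = h := inv_eq_of_mul_eq_one_left hh2
  have h1 := hg.count (by omega)
  have h2 := hg.finrank_J
  have h3 : finrank (ZMod 2) (J a b) = 5 := by
    have h4 : 2 ^ 4 < 2 ^ finrank (ZMod 2) (J a b) := by rw [hn] at h1; omega
    have h5 := (Nat.pow_lt_pow_iff_right (by norm_num : 1 < 2)).mp h4
    omega
  have h4 := (two_mul_finrank_map hh2 (fun f hf => J_tr (a := a) (b := b) h hf)).2
  set K : Submodule (ZMod 2) (Fn H) := J a b ⊓ LinearMap.ker (N h) with hK
  have h5 : ∀ x : H × Fin 3, errSyn a b (some x) ∉ K := by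
    rintro ⟨p, i⟩ hx
    have hx2 := mem_ker_N.mp hx.2
    fin_cases i
    · refine hg.b_ne (by omega) hh1 (tr_inj p⁻¹ ?_)
      rw [tr_comm]; exact hx2
    · refine hg.ia_ne (by omega) hh1 (tr_inj p ?_)
      rw [tr_comm]; exact hx2
    · have h6 : errSyn a b (some (h * p, 2)) = errSyn a b (some (p, 2)) := by
        refine Eq.trans ?_ hx2
        change tr (h * p)⁻¹ b + tr (h * p) (ia a) = tr h (tr p⁻¹ b + tr p (ia a))
        rw [map_add, tr_tr, tr_tr, mul_inv_rev, hinv, mul_comm p⁻¹ h]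
      have h7 := hg.errSyn_inj (by omega) h6
      simp only [Option.some.injEq, Prod.mk.injEq, mul_eq_right, and_true] at h7
      exact hh1 h7
  let F : (H × Fin 3) ⊕ K → J a b := fun x => match x with
    | .inl x => ⟨errSyn a b (some x), errSyn_mem _⟩
    | .inr x => ⟨x.1, x.2.1⟩
  have hF : Function.Injective F := by
    rintro (x | x) (y | y) hxy
    · have := hg.errSyn_inj (by omega) (congrArg Subtype.val hxy)
      simpa using this
    · exfalso
      have h6 : errSyn a b (some x) = y.1 := congrArg Subtype.val hxy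
      exact h5 x (by rw [h6]; exact y.2)
    · exfalso
      have h6 : x.1 = errSyn a b (some y) := congrArg Subtype.val hxy
      exact h5 y (by rw [← h6]; exact x.2)
    · have h6 := congrArg Subtype.val hxy
      exact congrArg Sum.inr (Subtype.ext h6)
  have h6 := Nat.card_le_card_of_injective F hF
  rw [Nat.card_sum, card_submodule, card_submodule, h3, Nat.card_eq_fintype_card,
    Fintype.card_prod, hn, Fintype.card_fin] at h6
  have h7 : 2 ^ 3 ≤ 2 ^ finrank (ZMod 2) K := Nat.pow_le_pow_right (by norm_num) (by omega)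
  omega

/-- Annihilated by `1 + w + w²`. -/
def KM (w : H) (f : Fn H) : Prop := f + tr w f + tr (w * w) f = 0

/-- Submodules invariant under all translations. -/
def TrInv (W : Submodule (ZMod 2) (Fn H)) : Prop := ∀ g : H, ∀ f ∈ W, tr g f ∈ W

theorem TrInv.map_N {W : Submodule (ZMod 2) (Fn H)} (hW : TrInv W) (h : H) :
    TrInv (W.map (N h)) := by
  rintro g _ ⟨f, hf, rfl⟩
  rw [tr_N]
  exact ⟨_, hW g f hf, rfl⟩

theorem TrInv.inf_ker {W : Submodule (ZMod 2) (Fn H)} (hW : TrInv W) (h : H) :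
    TrInv (W ⊓ LinearMap.ker (N h)) := by
  rintro g f ⟨h1, h2⟩
  refine ⟨hW g f h1, ?_⟩
  have h3 := mem_ker_N.mp h2
  refine mem_ker_N.mpr ?_
  rw [tr_comm, h3]

theorem KM.N {w : H} {f : Fn H} (hf : KM w f) (h : H) : KM w (N h f) := by
  unfold KM at *
  have : MP_91138c_lc.N h f + tr w (MP_91138c_lc.N h f) + tr (w * w) (MP_91138c_lc.N h f) =
      MP_91138c_lc.N h (f + tr w f + tr (w * w) f) := by
    rw [tr_N, tr_N, ← map_add, ← map_add]
  rw [this, hf, map_zero]

theorem KM.fix {w : H} {f : Fn H} (hf : KM w f) (h : tr w f = f) : f = 0 := by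
  unfold KM at hf
  rw [← tr_tr, h, h, add_self, zero_add] at hf
  exact hf

theorem even_finrank {w : H} (hw : w ^ 3 = 1) {W : Submodule (ZMod 2) (Fn H)} (hW : TrInv W)
    (hM : ∀ f ∈ W, KM w f) : Even (finrank (ZMod 2) W) := by
  haveI : Fact (Nat.Prime 3) := ⟨by norm_num⟩
  have h1 := fix_modEq hw W (hW w)
  have h2 : W ⊓ LinearMap.ker (N w) = ⊥ := by
    rw [eq_bot_iff]
    rintro f ⟨h1, h2⟩
    exact (hM f h1).fix (mem_ker_N.mp h2)
  rw [h2, finrank_bot, pow_zero] at h1
  by_contra h3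
  rw [Nat.not_even_iff_odd] at h3
  obtain ⟨k, hk⟩ := h3
  rw [hk] at h1
  have h4 : 2 ^ (2 * k + 1) ≡ 2 [MOD 3] := by
    rw [pow_succ, pow_mul]
    have : (2 ^ 2) ^ k ≡ 1 ^ k [MOD 3] := Nat.ModEq.pow k (by decide)
    simpa using this.mul_right 2
  have h5 := h4.symm.trans h1
  exact absurd h5 (by decide)

/-- All nonzero elements of a small space form one orbit under `w`. -/
theorem orbit {w : H} (hw : w ^ 3 = 1) {W : Submodule (ZMod 2) (Fn H)} (hW : TrInv W)
    (hM : ∀ f ∈ W, KM w f) (hW2 : finrank (ZMod 2) W ≤ 2) {x y : Fn H} (hx : x ∈ W)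
    (hy : y ∈ W) (hx0 : x ≠ 0) (hy0 : y ≠ 0) : ∃ i : H, i ^ 3 = 1 ∧ tr i x = y := by
  by_contra hcon
  push Not at hcon
  have hx1 : tr w x ≠ x := fun h => hx0 ((hM x hx).fix h)
  have hx2 : tr (w * w) x ≠ x := by
    intro h
    refine hx1 ?_
    conv_lhs => rw [← h]
    rw [tr_tr, ← mul_assoc, ← pow_three', hw, tr_one]
  have hx3 : tr (w * w) x ≠ tr w x := by
    intro h
    refine hx1 (tr_inj w ?_)
    rw [tr_tr, h]
  have h0 : ∀ g : H, tr g x ≠ 0 := fun g h => hx0 (tr_inj g (by rw [h, map_zero]))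
  let s : Finset (Fn H) := {0, x, tr w x, tr (w * w) x, y}
  have e1 := hcon 1 (by simp)
  rw [tr_one] at e1
  have e2 := hcon w hw
  have e3 := hcon (w * w) (by rw [mul_pow, hw, one_mul])
  have hs : s.card = 5 := by
    have n1 : (0 : Fn H) ∉ ({x, tr w x, tr (w * w) x, y} : Finset (Fn H)) := by
      simp only [mem_insert, mem_singleton, not_or]
      exact ⟨hx0.symm, (h0 w).symm, (h0 _).symm, hy0.symm⟩
    have n2 : x ∉ ({tr w x, tr (w * w) x, y} : Finset (Fn H)) := by
      simp only [mem_insert, mem_singleton, not_or]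
      exact ⟨hx1.symm, hx2.symm, e1⟩
    have n3 : tr w x ∉ ({tr (w * w) x, y} : Finset (Fn H)) := by
      simp only [mem_insert, mem_singleton, not_or]
      exact ⟨hx3.symm, e2⟩
    have n4 : tr (w * w) x ∉ ({y} : Finset (Fn H)) := by
      simp only [mem_singleton]; exact e3
    rw [card_insert_of_notMem n1, card_insert_of_notMem n2, card_insert_of_notMem n3,
      card_insert_of_notMem n4, card_singleton]
  have hsW : ∀ z ∈ s, z ∈ W := by
    intro z hz
    simp only [s, mem_insert, mem_singleton] at hz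
    rcases hz with rfl | rfl | rfl | rfl | rfl
    · exact Submodule.zero_mem _
    · exact hx
    · exact hW _ _ hx
    · exact hW _ _ hx
    · exact hy
  have h1 : Function.Injective (fun z : s => (⟨z.1, hsW z.1 z.2⟩ : W)) :=
    fun z1 z2 h => by
      have h' := congrArg Subtype.val h
      exact Subtype.ext h'
  have h2 := Nat.card_le_card_of_injective _ h1
  rw [Nat.card_eq_fintype_card, Fintype.card_coe, hs, card_submodule] at h2
  have h3 : 2 ^ finrank (ZMod 2) W ≤ 2 ^ 2 := Nat.pow_le_pow_right (by norm_num) hW2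
  omega

/-- A unipotent translation acts trivially on a small space of this kind. -/
theorem N_eq_zero_of_small {w t : H} (hw : w ^ 3 = 1) (ht : t ^ 4 = 1)
    {W : Submodule (ZMod 2) (Fn H)} (hW : TrInv W) (hM : ∀ f ∈ W, KM w f) :
    (W ≠ ⊥ → 2 ≤ finrank (ZMod 2) (W ⊓ LinearMap.ker (N t) : Submodule (ZMod 2) (Fn H))) ∧
    (finrank (ZMod 2) W ≤ 2 → ∀ f ∈ W, N t f = 0) := by
  have hnil : ∀ f, N t (N t (N t (N t f))) = 0 := by
    have h1 : ∀ f : Fn H, N t (N t f) = N (t * t) f := by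
      intro f
      simp only [N_apply, map_add, tr_tr]
      have : f + tr t f + (tr t f + tr (t * t) f) = f + tr (t * t) f + (tr t f + tr t f) := by
        abel
      rw [this, add_self, add_zero]
    intro f
    rw [h1 (N t (N t f)), h1 f]
    refine N_N ?_ f
    rw [← ht]; simp [pow_succ, mul_assoc]
  have h1 : W ≠ ⊥ → W ⊓ LinearMap.ker (N t) ≠ ⊥ := by
    intro hne hbot
    refine hne ?_
    have h2 : ∀ f ∈ W, N t f = 0 → f = 0 := by
      intro f hf h3
      have : f ∈ W ⊓ LinearMap.ker (N t) := ⟨hf, h3⟩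
      rwa [hbot, Submodule.mem_bot] at this
    rw [eq_bot_iff]
    intro f hf
    have i1 := N_mem (hW t) hf
    have i2 := N_mem (hW t) i1
    have i3 := N_mem (hW t) i2
    exact h2 f hf (h2 _ i1 (h2 _ i2 (h2 _ i3 (hnil f))))
  have h2 : W ≠ ⊥ → 2 ≤ finrank (ZMod 2) (W ⊓ LinearMap.ker (N t) : Submodule (ZMod 2) (Fn H)) := by
    intro hne
    have h3 := h1 hne
    have h4 := even_finrank hw (hW.inf_ker t) (fun f hf => hM f hf.1)
    have h5 : finrank (ZMod 2) (W ⊓ LinearMap.ker (N t) : Submodule (ZMod 2) (Fn H)) ≠ 0 :=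
      fun h => h3 (Submodule.finrank_eq_zero.mp h)
    obtain ⟨k, hk⟩ := h4
    omega
  refine ⟨h2, fun h3 f hf => ?_⟩
  by_cases hne : W = ⊥
  · rw [hne, Submodule.mem_bot] at hf
    rw [hf, map_zero]
  · have h4 := h2 hne
    have h5 : W ⊓ LinearMap.ker (N t) = W :=
      Submodule.eq_of_le_of_finrank_le inf_le_left (by omega)
    rw [← h5] at hf
    exact hf.2

end Pool.Agent.Lib.MP_91138c_lc
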