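import Pool.Agent.Lib.MP_91138c_lc.Defs

/-!
# Abelian mirror codes: translations, syndromes
-/

namespace Pool.Agent.Lib.MP_91138c_lc

open Finset Module

/-- Functions on the group with values in `F_2`. -/
abbrev Fn (H : Type*) := H → ZMod 2

section tr
variable {H : Type*} [CommGroup H]

/-- Translation of functions: `tr g f` is `f` moved by `g`. -/
def tr (g : H) : Fn H →ₗ[ZMod 2] Fn H where
  toFun f := fun q => f (g⁻¹ * q)
  map_add' _ _ := rfl
  map_smul' _ _ := rfl

@[simp] theorem tr_apply (g : H) (f : Fn H) (q : H) : tr g f q = f (g⁻¹ * q) := rfl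

theorem tr_tr (g h : H) (f : Fn H) : tr g (tr h f) = tr (g * h) f := by
  funext q; simp [mul_assoc]

@[simp] theorem tr_one (f : Fn H) : tr 1 f = f := by funext q; simp

theorem tr_comm (g h : H) (f : Fn H) : tr g (tr h f) = tr h (tr g f) := by
  rw [tr_tr, tr_tr, mul_comm]

theorem tr_inj (g : H) {f k : Fn H} (h : tr g f = tr g k) : f = k := by
  have := congrArg (tr g⁻¹) h
  simpa [tr_tr] using this

/-- The check with parameters `a, b`. -/
def chk (a b : Fn H) (g : H) : Pauli H := (tr g a, tr g⁻¹ b)

/-- The translation of Pauli vectors that permutes the checks. -/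
def tau (g : H) : Pauli H →ₗ[ZMod 2] Pauli H where
  toFun v := (tr g v.1, tr g⁻¹ v.2)
  map_add' _ _ := by simp
  map_smul' _ _ := by simp

@[simp] theorem tau_apply (g : H) (v : Pauli H) : tau g v = (tr g v.1, tr g⁻¹ v.2) := rfl

theorem tau_chk (a b : Fn H) (g h : H) : tau g (chk a b h) = chk a b (g * h) := by
  simp [chk, tr_tr, mul_comm]

omit [CommGroup H] in
theorem add_self (f : Fn H) : f + f = 0 := by
  funext q; simp [CharTwo.add_self_eq_zero]

omit [CommGroup H] in
theorem eq_of_add_eq_zero' {f k : Fn H} (h : f + k = 0) : f = k := by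
  funext q
  have := congrFun h q
  simp only [Pi.add_apply, Pi.zero_apply] at this
  exact CharTwo.add_eq_zero.mp this

variable [DecidableEq H]

/-- Point mass. -/
def pt (p : H) : Fn H := Pi.single p 1

theorem tr_pt (g p : H) : tr g (pt p) = pt (g * p) := by
  funext q
  simp only [tr_apply, pt, Pi.single_apply]
  congr 1
  rw [inv_mul_eq_iff_eq_mul]

end tr

section form
variable {H : Type*} [Fintype H]

theorem form_add_left (u v w : Pauli H) : form (u + v) w = form u w + form v w := by
  simp only [form, Prod.fst_add, Prod.snd_add, Pi.add_apply, ← sum_add_distrib]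
  refine sum_congr rfl fun q _ => ?_
  ring

theorem form_smul_left (c : ZMod 2) (u w : Pauli H) : form (c • u) w = c * form u w := by
  simp only [form, Prod.smul_fst, Prod.smul_snd, Pi.smul_apply, smul_eq_mul, mul_sum]
  refine sum_congr rfl fun q _ => ?_
  ring

theorem form_comm (u w : Pauli H) : form u w = form w u := by
  simp only [form]
  refine sum_congr rfl fun q _ => ?_
  ring

theorem form_add_right (u v w : Pauli H) : form u (v + w) = form u v + form u w := by
  rw [form_comm, form_add_left, form_comm v, form_comm w]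

theorem form_smul_right (c : ZMod 2) (u w : Pauli H) : form u (c • w) = c * form u w := by
  rw [form_comm, form_smul_left, form_comm]

/-- The form as a bilinear map. -/
def formL : Pauli H →ₗ[ZMod 2] Pauli H →ₗ[ZMod 2] ZMod 2 :=
  LinearMap.mk₂ (ZMod 2) form form_add_left form_smul_left form_add_right form_smul_right

@[simp] theorem formL_apply (u v : Pauli H) : formL u v = form u v := rfl

theorem form_mem_span {S : H → Pauli H} {v : Pauli H} (h : ∀ g, form v (S g) = 0)
    {u : Pauli H} (hu : u ∈ stab S) : form v u = 0 := by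
  induction hu using Submodule.span_induction with
  | mem x hx => obtain ⟨g, rfl⟩ := hx; exact h g
  | zero => simpa using form_smul_right 0 v 0
  | add x y _ _ hx hy => rw [form_add_right, hx, hy, add_zero]
  | smul c x _ hx => rw [form_smul_right, hx, mul_zero]

end form

section syn
variable {H : Type*} [CommGroup H] [Fintype H]

/-- The syndrome of a Pauli vector. -/
def syn (a b : Fn H) : Pauli H →ₗ[ZMod 2] Fn H where
  toFun v := fun g => form v (chk a b g)
  map_add' _ _ := by funext g; simp [form_add_left]
  map_smul' _ _ := by funext g; simp [form_smul_left]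

@[simp] theorem syn_apply (a b : Fn H) (v : Pauli H) (g : H) :
    syn a b v g = form v (chk a b g) := rfl

/-- `tau g` is self-adjoint. -/
theorem form_tau (g : H) (u v : Pauli H) : form (tau g u) v = form u (tau g v) := by
  have h1 : ∀ (g : H) (f k : Fn H), ∑ q, tr g f q * k q = ∑ q, f q * tr g⁻¹ k q := by
    intro g f k
    refine (Fintype.sum_equiv (Equiv.mulLeft g) _ _ fun q => ?_).symm
    simp
  simp only [form, sum_add_distrib, tau_apply]
  rw [h1 g u.1 v.2, h1 g⁻¹ u.2 v.1]
  simp

theorem tr_syn (a b : Fn H) (h : H) (v : Pauli H) :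
    tr h⁻¹ (syn a b v) = syn a b (tau h v) := by
  funext g
  simp only [tr_apply, syn_apply, form_tau, tau_chk, inv_inv]

theorem tau_mem (a b : Fn H) (g : H) {v : Pauli H} (hv : v ∈ stab (chk a b)) :
    tau g v ∈ stab (chk a b) := by
  induction hv using Submodule.span_induction with
  | mem x hx =>
    obtain ⟨h, rfl⟩ := hx
    rw [tau_chk]
    exact Submodule.subset_span ⟨_, rfl⟩
  | zero => rw [map_zero]; exact Submodule.zero_mem _
  | add x y _ _ hx hy => rw [map_add]; exact Submodule.add_mem _ hx hy
  | smul c x _ hx => rw [map_smul]; exact Submodule.smul_mem _ _ hx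

theorem finrank_syn_le (a b : Fn H) :
    finrank (ZMod 2) (LinearMap.range (syn a b)) ≤ finrank (ZMod 2) (stab (chk a b)) := by
  let V := stab (chk a b)
  let c : H → V := fun g => ⟨chk a b g, Submodule.subset_span ⟨g, rfl⟩⟩
  let e : Dual (ZMod 2) V →ₗ[ZMod 2] Fn H :=
    { toFun := fun φ g => φ (c g)
      map_add' := fun _ _ => rfl
      map_smul' := fun _ _ => rfl }
  have h1 : LinearMap.range (syn a b) ≤ LinearMap.range e := by
    rintro _ ⟨v, rfl⟩
    exact ⟨(formL v).comp V.subtype, rfl⟩
  refine (Submodule.finrank_mono h1).trans ?_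
  refine (LinearMap.finrank_range_le e).trans ?_
  rw [Subspace.dual_finrank_eq]

variable [DecidableEq H]

theorem syn_Z (a b : Fn H) (p : H) : syn a b (pt p, 0) = tr p⁻¹ b := by
  funext g
  simp only [syn_apply, form, chk, Pi.zero_apply, zero_mul, add_zero, pt, Pi.single_apply,
    ite_mul, one_mul, sum_ite_eq', mem_univ, if_true, tr_apply, inv_inv]
  rw [mul_comm]

theorem syn_X (a b : Fn H) (p : H) : syn a b (0, pt p) = tr p (fun g => a g⁻¹) := by
  funext g
  simp only [syn_apply, form, chk, Pi.zero_apply, zero_mul, zero_add, pt, Pi.single_apply,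
    ite_mul, one_mul, sum_ite_eq', mem_univ, if_true, tr_apply, mul_inv_rev, inv_inv]

end syn

section inv
variable {H : Type*} [CommGroup H] [Fintype H]

/-- `1 + tr h`. -/
def N (h : H) : Fn H →ₗ[ZMod 2] Fn H := LinearMap.id + tr h

omit [Fintype H] in
@[simp] theorem N_apply (h : H) (f : Fn H) : N h f = f + tr h f := rfl

omit [Fintype H] in
theorem mem_ker_N {h : H} {f : Fn H} : f ∈ LinearMap.ker (N h) ↔ tr h f = f := by
  rw [LinearMap.mem_ker, N_apply]
  constructor
  · intro h1; exact (eq_of_add_eq_zero' h1).symm
  · intro h1; rw [h1, add_self]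

theorem finrank_ker_N (h : H) :
    orderOf h * finrank (ZMod 2) (LinearMap.ker (N h)) ≤ Fintype.card H := by
  classical
  let Q := H ⧸ Subgroup.zpowers h
  let e : LinearMap.ker (N h) →ₗ[ZMod 2] (Q → ZMod 2) :=
    { toFun := fun f q => f.1 q.out
      map_add' := fun _ _ => rfl
      map_smul' := fun _ _ => rfl }
  have hpow : ∀ (f : Fn H), tr h f = f → ∀ k ∈ Subgroup.zpowers h, ∀ x, f (x * k) = f x := by
    intro f hf k hk
    have hS : k ∈ ({ carrier := {k | ∀ x, f (x * k) = f x}
                     mul_mem' := fun {a b} ha hb x => by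
                      have h1 : ∀ x, f (x * a) = f x := ha
                      have h2 : ∀ x, f (x * b) = f x := hb
                      rw [← mul_assoc, h2, h1]
                     one_mem' := fun x => by rw [mul_one]
                     inv_mem' := fun {a} ha x => by
                      have h1 : ∀ x, f (x * a) = f x := ha
                      rw [← h1 (x * a⁻¹)]; simp } : Subgroup H) := by
      refine (Subgroup.zpowers_le.mpr ?_) hk
      intro x
      have := congrFun hf (x * h)
      simp only [tr_apply] at this
      rw [← this, mul_comm x h, inv_mul_cancel_left]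
    exact hS
  have hinj : Function.Injective e := by
    intro f k hfk
    apply Subtype.ext
    funext x
    have h1 := congrFun hfk (QuotientGroup.mk x)
    have h2 : (QuotientGroup.mk x : Q).out⁻¹ * x ∈ Subgroup.zpowers h :=
      QuotientGroup.eq.mp (Quotient.out_eq' _)
    have h3 := hpow f.1 (mem_ker_N.mp f.2) _ h2 (QuotientGroup.mk x : Q).out
    have h4 := hpow k.1 (mem_ker_N.mp k.2) _ h2 (QuotientGroup.mk x : Q).out
    rw [mul_inv_cancel_left] at h3 h4
    rw [h3, h4]
    exact h1
  have h5 : finrank (ZMod 2) (LinearMap.ker (N h)) ≤ Fintype.card Q := by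
    have := LinearMap.finrank_le_finrank_of_injective hinj
    rwa [finrank_fintype_fun_eq_card] at this
  have h6 : Fintype.card H = Fintype.card Q * orderOf h := by
    have := Subgroup.card_eq_card_quotient_mul_card_subgroup (Subgroup.zpowers h)
    rwa [Nat.card_eq_fintype_card, Nat.card_eq_fintype_card, Nat.card_zpowers] at this
  rw [h6, mul_comm]
  exact Nat.mul_le_mul_right _ h5

end inv

end Pool.Agent.Lib.MP_91138c_lc
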