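import Pool.Agent.Lib.MP_91138c_lc.Nondeg

/-!
# Counting syndromes
-/

set_option linter.unusedSectionVars false

namespace Pool.Agent.Lib.MP_91138c_lc

open Finset Module

variable {H : Type*} [CommGroup H] [Fintype H] [DecidableEq H] {a b : Fn H}

/-- The space of syndromes. -/
def J (a b : Fn H) : Submodule (ZMod 2) (Fn H) := LinearMap.range (syn a b)

theorem J_tr (g : H) {f : Fn H} (hf : f ∈ J a b) : tr g f ∈ J a b := by
  obtain ⟨v, rfl⟩ := hf
  have := tr_syn a b g⁻¹ v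
  rw [inv_inv] at this
  rw [this]
  exact ⟨_, rfl⟩

theorem b_mem_J : b ∈ J a b := ⟨(pt 1, 0), by rw [syn_Z]; simp⟩

theorem ia_mem_J : ia a ∈ J a b := ⟨(0, pt 1), by rw [syn_X']; simp⟩

theorem Good.finrank_J (hg : Good a b) : finrank (ZMod 2) (J a b) + 5 ≤ Fintype.card H :=
  (Nat.add_le_add_right (finrank_syn_le a b) 5).trans hg.card5

/-- Two Pauli vectors supported on at most two points altogether, with the same syndrome,
differ by an element of `V`. -/
theorem Good.pair_mem (hg : Good a b) {z x : Fn H} (p q : H)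
    (hz : ∀ r, r ≠ p → r ≠ q → z r = 0) (hx : ∀ r, r ≠ p → r ≠ q → x r = 0)
    (h : syn a b (z, x) = 0) : (z, x) ∈ stab (chk a b) :=
  hg.det _ (weight_pair z x p q hz hx) h

theorem syn_zx (z x : Fn H) : syn a b (z, x) = syn a b (z, 0) + syn a b (0, x) := syn_pair z x

theorem Good.Z_ne_X (hg : Good a b) (p q : H) : tr p⁻¹ b ≠ tr q (ia a) := by
  intro h
  refine hg.pt_not_mem p (pt q) (hg.pair_mem p q ?_ ?_ ?_)
  · intro r h1 _; exact pt_ne h1
  · intro r _ h2; exact pt_ne h2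
  · rw [syn_zx, syn_Z, syn_X', h, add_self]

theorem Good.Z_ne_zero (hg : Good a b) (p : H) : tr p⁻¹ b ≠ 0 := by
  intro h
  refine hg.pt_not_mem p 0 (hg.pair_mem p p ?_ ?_ ?_)
  · intro r h1 _; exact pt_ne h1
  · intro r _ _; rfl
  · rw [syn_Z, h]

theorem Good.X_ne_zero (hg : Good a b) (p : H) : tr p (ia a) ≠ 0 := by
  intro h
  refine hg.pt_not_mem' p 0 (hg.pair_mem p p ?_ ?_ ?_)
  · intro r _ _; rfl
  · intro r h1 _; exact pt_ne h1
  · rw [syn_X', h]

theorem Good.Z_ne_Y (hg : Good a b) (p q : H) : tr p⁻¹ b ≠ tr q⁻¹ b + tr q (ia a) := by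
  intro h
  refine hg.pt_not_mem' q (pt p + pt q) (hg.pair_mem p q ?_ ?_ ?_)
  · intro r h1 h2; simp [pt_ne h1, pt_ne h2]
  · intro r _ h2; exact pt_ne h2
  · have e : ((pt p + pt q, 0) : Pauli H) = (pt p, 0) + (pt q, 0) := by simp
    rw [syn_zx, e, map_add, syn_Z, syn_Z, syn_X', h]
    have : tr q⁻¹ b + tr q (ia a) + tr q⁻¹ b + tr q (ia a) =
      (tr q⁻¹ b + tr q⁻¹ b) + (tr q (ia a) + tr q (ia a)) := by abel
    rw [this, add_self, add_self, add_zero]

theorem Good.X_ne_Y (hg : Good a b) (p q : H) : tr p (ia a) ≠ tr q⁻¹ b + tr q (ia a) := by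
  intro h
  refine hg.pt_not_mem q (pt p + pt q) (hg.pair_mem p q ?_ ?_ ?_)
  · intro r _ h2; exact pt_ne h2
  · intro r h1 h2; simp [pt_ne h1, pt_ne h2]
  · have e : ((0, pt p + pt q) : Pauli H) = (0, pt p) + (0, pt q) := by simp
    rw [syn_zx, e, map_add, syn_Z, syn_X', syn_X', h]
    have : tr q⁻¹ b + (tr q⁻¹ b + tr q (ia a) + tr q (ia a)) =
      (tr q⁻¹ b + tr q⁻¹ b) + (tr q (ia a) + tr q (ia a)) := by abel
    rw [this, add_self, add_self, add_zero]

theorem Good.Y_ne_zero (hg : Good a b) (q : H) : tr q⁻¹ b + tr q (ia a) ≠ 0 := by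
  intro h
  exact hg.Z_ne_X q q (eq_of_add_eq_zero' h)

/-- Non-collision of two `Y` errors. -/
theorem Good.nocoll (hg : Good a b) (hn : Fintype.card H ≤ 12) {h : H} (hh : h ≠ 1) (q : H) :
    tr (q⁻¹ * q⁻¹) (N h⁻¹ b) ≠ N h (ia a) := by
  intro h0
  refine hg.Y_ne hn hh (p := q) (hg.pair_mem q (h * q) ?_ ?_ ?_)
  · intro r h1 h2; rw [N_pt]; simp [pt_ne h1, pt_ne h2]
  · intro r h1 h2; rw [N_pt]; simp [pt_ne h1, pt_ne h2]
  · rw [syn_zx]
    have e1 : syn a b (N h (pt q), 0) = tr q⁻¹ (N h⁻¹ b) := by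
      have e : ((N h (pt q), 0) : Pauli H) = (pt q, 0) + (pt (h * q), 0) := by
        rw [N_pt]; simp
      rw [e, map_add, syn_Z, syn_Z, mul_inv_rev, ← tr_tr, ← map_add, ← N_apply]
    have e2 : syn a b (0, N h (pt q)) = tr q (N h (ia a)) := by
      have e : ((0, N h (pt q)) : Pauli H) = (0, pt q) + (0, pt (h * q)) := by
        rw [N_pt]; simp
      rw [e, map_add, syn_X', syn_X', mul_comm h q, ← tr_tr, ← map_add, ← N_apply]
    rw [e1, e2, ← h0, tr_tr, mul_inv_cancel_left, add_self]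

theorem Good.b_ne (hg : Good a b) (hn : Fintype.card H ≤ 12) {h : H} (hh : h ≠ 1) :
    tr h b ≠ b := hg.swap.tr_ne hn hh

theorem Good.ia_ne (hg : Good a b) (hn : Fintype.card H ≤ 12) {h : H} (hh : h ≠ 1) :
    tr h (ia a) ≠ ia a := by
  intro h1
  rw [tr_ia] at h1
  refine hg.tr_ne hn (h := h⁻¹) (by simpa using hh) ?_
  funext q
  have := congrFun h1 q⁻¹
  simpa [ia] using this

/-- The syndromes of the errors of weight at most one. -/
def errSyn (a b : Fn H) : Option (H × Fin 3) → Fn H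
  | none => 0
  | some (p, 0) => tr p⁻¹ b
  | some (p, 1) => tr p (ia a)
  | some (p, 2) => tr p⁻¹ b + tr p (ia a)

theorem Good.errSyn_inj (hg : Good a b) (hn : Fintype.card H ≤ 12) :
    Function.Injective (errSyn a b) := by
  have hY : ∀ p q, tr p⁻¹ b + tr p (ia a) = tr q⁻¹ b + tr q (ia a) → p = q := by
    intro p q h
    by_contra hpq
    have hh : q * p⁻¹ ≠ 1 := fun h => hpq (mul_inv_eq_one.mp h).symm
    refine hg.nocoll hn hh p ?_
    refine tr_inj p ?_
    rw [tr_tr, mul_inv_cancel_left, tr_N, tr_N, N_apply, N_apply, tr_tr, tr_tr]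
    have e1 : (q * p⁻¹)⁻¹ * p⁻¹ = q⁻¹ := by
      rw [mul_inv_rev, inv_inv, mul_comm p q⁻¹, mul_assoc, mul_inv_cancel, mul_one]
    have e2 : q * p⁻¹ * p = q := by group
    rw [e1, e2]
    refine eq_of_add_eq_zero' ?_
    have : tr p⁻¹ b + tr q⁻¹ b + (tr p (ia a) + tr q (ia a)) =
      (tr p⁻¹ b + tr p (ia a)) + (tr q⁻¹ b + tr q (ia a)) := by abel
    rw [this, h, add_self]
  have hZ : ∀ p q, tr p⁻¹ b = tr q⁻¹ b → p = q := by
    intro p q h
    by_contra hpq
    refine hg.b_ne hn (h := q * p⁻¹) (fun h => hpq (mul_inv_eq_one.mp h).symm) ?_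
    rw [← tr_tr, h, tr_tr, mul_inv_cancel, tr_one]
  have hX : ∀ p q, tr p (ia a) = tr q (ia a) → p = q := by
    intro p q h
    by_contra hpq
    refine hg.ia_ne hn (h := q⁻¹ * p) (fun h => hpq (inv_mul_eq_one.mp h).symm) ?_
    rw [← tr_tr, h, tr_tr, inv_mul_cancel, tr_one]
  rintro (_ | ⟨p, i⟩) (_ | ⟨q, j⟩) h
  · rfl
  · exfalso
    fin_cases j
    · exact hg.Z_ne_zero q h.symm
    · exact hg.X_ne_zero q h.symm
    · exact hg.Y_ne_zero q h.symm
  · exfalso
    fin_cases i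
    · exact hg.Z_ne_zero p h
    · exact hg.X_ne_zero p h
    · exact hg.Y_ne_zero p h
  · fin_cases i <;> fin_cases j
    · rw [hZ p q h]
    · exact absurd h (hg.Z_ne_X p q)
    · exact absurd h (hg.Z_ne_Y p q)
    · exact absurd h.symm (hg.Z_ne_X q p)
    · rw [hX p q h]
    · exact absurd h (hg.X_ne_Y p q)
    · exact absurd h.symm (hg.Z_ne_Y q p)
    · exact absurd h.symm (hg.X_ne_Y q p)
    · rw [hY p q h]

theorem errSyn_mem (x : Option (H × Fin 3)) : errSyn a b x ∈ J a b := by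
  rcases x with _ | ⟨p, i⟩
  · exact Submodule.zero_mem _
  · fin_cases i
    · exact J_tr _ b_mem_J
    · exact J_tr _ ia_mem_J
    · exact Submodule.add_mem _ (J_tr _ b_mem_J) (J_tr _ ia_mem_J)

theorem card_submodule (W : Submodule (ZMod 2) (Fn H)) :
    Nat.card W = 2 ^ finrank (ZMod 2) W := by
  have := Module.natCard_eq_pow_finrank (K := ZMod 2) (V := W)
  rw [this, Nat.card_zmod]

theorem Good.count (hg : Good a b) (hn : Fintype.card H ≤ 12) :
    3 * Fintype.card H + 1 ≤ 2 ^ finrank (ZMod 2) (J a b) := by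
  rw [← card_submodule]
  have h1 : Function.Injective (fun x => (⟨errSyn a b x, errSyn_mem x⟩ : J a b)) :=
    fun x y h => hg.errSyn_inj hn (congrArg Subtype.val h)
  have h2 := Nat.card_le_card_of_injective _ h1
  refine le_trans (le_of_eq ?_) h2
  rw [Nat.card_eq_fintype_card, Fintype.card_option, Fintype.card_prod, Fintype.card_fin]
  ring

theorem Good.ten_le (hg : Good a b) (hn : Fintype.card H ≤ 12) : 10 ≤ Fintype.card H := by
  have h1 := hg.count hn
  have h2 := hg.finrank_J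
  by_contra h3
  have h4 : 2 ^ finrank (ZMod 2) (J a b) ≤ 2 ^ (Fintype.card H - 5) :=
    Nat.pow_le_pow_right (by norm_num) (by omega)
  have h5 : 3 * Fintype.card H + 1 ≤ 2 ^ (Fintype.card H - 5) := h1.trans h4
  have h6 : 5 ≤ Fintype.card H := by omega
  generalize Fintype.card H = n at *
  interval_cases n <;> simp at h5

end Pool.Agent.Lib.MP_91138c_lc
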