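import Mathlib

/-!
# Mirror codes: definitions
-/

namespace Pool.Agent.Lib.MP_91138c_lc

/-- Pauli operators up to phase on qubits indexed by `G`, as vectors `(z, x)` of `F_2^{2n}`:
`z q ≠ 0` means a factor `Z` on qubit `q`, `x q ≠ 0` a factor `X` on qubit `q`. -/
abbrev Pauli (G : Type*) : Type _ := (G → ZMod 2) × (G → ZMod 2)

section
variable {G : Type*} [Fintype G]

/-- The symplectic form: it vanishes if and only if the two Pauli operators commute. -/
def form (u v : Pauli G) : ZMod 2 := ∑ q, (u.1 q * v.2 q + u.2 q * v.1 q)

/-- A family of checks is valid if the checks commute pairwise. -/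
def Valid (S : G → Pauli G) : Prop := ∀ g h, form (S g) (S h) = 0

/-- The span `V` of the checks. -/
def stab (S : G → Pauli G) : Submodule (ZMod 2) (Pauli G) :=
  Submodule.span (ZMod 2) (Set.range S)

/-- The number of logical qubits `k = n - dim V`. -/
noncomputable def logicalQubits (S : G → Pauli G) : ℕ :=
  Fintype.card G - Module.finrank (ZMod 2) (stab S)

/-- The weight: the number of qubits acted on nontrivially. -/
def weight (v : Pauli G) : ℕ := (Finset.univ.filter fun q => v.1 q ≠ 0 ∨ v.2 q ≠ 0).card

/-- The distance: the least weight of a Pauli operator commuting with every check whose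
vector is not in `V` (and `0` if there is none, that is, if `k = 0`). -/
noncomputable def distance (S : G → Pauli G) : ℕ :=
  sInf {w | ∃ v : Pauli G, (∀ g, form v (S g) = 0) ∧ v ∉ stab S ∧ weight v = w}

end

section
variable {G : Type*} [Group G] [DecidableEq G]

/-- The operator `Z(S) X(T)`. -/
def zx (S T : Finset G) : Pauli G :=
  (fun q => if q ∈ S then 1 else 0, fun q => if q ∈ T then 1 else 0)

/-- Symmetric mirror checks `Z(A g) X(B g⁻¹)`. -/
def symCheck (A B : Finset G) (g : G) : Pauli G := zx (A.image (· * g)) (B.image (· * g⁻¹))

/-- Asymmetric mirror checks `Z(A g) X(g⁻¹ B)`. -/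
def asymCheck (A B : Finset G) (g : G) : Pauli G := zx (A.image (· * g)) (B.image (g⁻¹ * ·))

end

/-- `[[n', k', d']]` is at least as good as `[[n, k, d]]` in each of the three parameters
(if `k = 0`, the requirement on the distance is void). -/
def AtLeastAsGood (n' k' d' n k d : ℕ) : Prop := n' ≤ n ∧ k ≤ k' ∧ (k = 0 ∨ d ≤ d')

/-- `[[n', k', d']]` dominates `[[n, k, d]]`: it is at least as good, and strictly better in one
of the parameters. -/
def Dominates (n' k' d' n k d : ℕ) : Prop :=
  AtLeastAsGood n' k' d' n k d ∧ (n' < n ∨ k < k' ∨ d < d')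

/-- The statement asked about in Q1: the parameters of every valid (symmetric or asymmetric) mirror
code on a finite non-abelian group are dominated by those of some abelian mirror code. -/
def Question : Prop :=
  ∀ (G : Type) [Group G] [Fintype G] [DecidableEq G] (A B : Finset G) (S : G → Pauli G),
    (∃ x y : G, x * y ≠ y * x) → (S = symCheck A B ∨ S = asymCheck A B) → Valid S →
    ∃ (H : Type) (_ : CommGroup H) (_ : Fintype H) (_ : DecidableEq H) (A' B' : Finset H),
      Dominates (Fintype.card H) (logicalQubits (symCheck A' B')) (distance (symCheck A' B'))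
        (Fintype.card G) (logicalQubits S) (distance S)

/-- The subset `A` of the dicyclic group of order 12 in our counterexample. -/
def exA : Finset (QuaternionGroup 3) :=
  {QuaternionGroup.a 0, QuaternionGroup.a 1, QuaternionGroup.a 3, QuaternionGroup.xa 0}

/-- The subset `B` of the dicyclic group of order 12 in our counterexample. -/
def exB : Finset (QuaternionGroup 3) :=
  {QuaternionGroup.a 1, QuaternionGroup.a 2, QuaternionGroup.a 3,
    QuaternionGroup.xa 2, QuaternionGroup.xa 3, QuaternionGroup.xa 4}

end Pool.Agent.Lib.MP_91138c_lc
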