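import Pool.Agent.Lib.MP_91138c_lc.Nondeg

/-!
# A [[12, 5, 3]] asymmetric mirror code on the dicyclic group of order 12
-/

namespace Pool.Agent.Lib.MP_91138c_lc

open Finset Module QuaternionGroup

/-- The dicyclic group of order 12. -/
abbrev Dic : Type := QuaternionGroup 3

set_option maxRecDepth 100000

theorem ex_valid : Valid (asymCheck exA exB) := by
  unfold Valid
  decide +kernel

/-- Seven independent checks. -/
def gens : Fin 7 → Dic := ![a 0, a 1, a 2, a 3, a 4, a 5, xa 0]

/-- The parametrization of the span. -/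
def par : (Fin 7 → ZMod 2) →ₗ[ZMod 2] Pauli Dic :=
  Fintype.linearCombination (ZMod 2) (fun i => asymCheck exA exB (gens i))

theorem par_apply (c : Fin 7 → ZMod 2) :
    par c = ∑ i, c i • asymCheck exA exB (gens i) := rfl

theorem par_inj : Function.Injective par := by
  rw [← LinearMap.ker_eq_bot, LinearMap.ker_eq_bot']
  have : ∀ c : Fin 7 → ZMod 2, (∑ i, c i • asymCheck exA exB (gens i) = 0) → c = 0 := by
    decide +kernel
  intro c hc
  exact this c hc

theorem par_surj : ∀ g : Dic, ∃ c : Fin 7 → ZMod 2,
    ∑ i, c i • asymCheck exA exB (gens i) = asymCheck exA exB g := by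
  decide +kernel

theorem range_par : LinearMap.range par = stab (asymCheck exA exB) := by
  apply le_antisymm
  · rintro _ ⟨c, rfl⟩
    rw [par_apply]
    exact Submodule.sum_mem _ fun i _ => Submodule.smul_mem _ _ (Submodule.subset_span ⟨_, rfl⟩)
  · refine Submodule.span_le.mpr ?_
    rintro _ ⟨g, rfl⟩
    obtain ⟨c, hc⟩ := par_surj g
    exact ⟨c, by rw [par_apply, hc]⟩

theorem finrank_stab : finrank (ZMod 2) (stab (asymCheck exA exB)) = 7 := by
  rw [← range_par, LinearMap.finrank_range_of_inj par_inj, finrank_fintype_fun_eq_card,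
    Fintype.card_fin]

theorem card_Dic : Fintype.card Dic = 12 := by
  rw [QuaternionGroup.card]

theorem ex_logicalQubits : logicalQubits (asymCheck exA exB) = 5 := by
  rw [logicalQubits, finrank_stab, card_Dic]

/-- A logical operator of weight three. -/
def logv : Pauli Dic := zx {a 0, a 1} {a 1, a 4}

/-- Another logical operator, not commuting with the first. -/
def logu : Pauli Dic := zx {a 0, xa 0} {a 1, xa 0}

theorem logv_comm : ∀ g, form logv (asymCheck exA exB g) = 0 := by decide +kernel

theorem logu_comm : ∀ g, form logu (asymCheck exA exB g) = 0 := by decide +kernel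

theorem logu_logv : form logu logv = 1 := by decide +kernel

theorem weight_logv : weight logv = 3 := by decide +kernel

theorem logv_not_mem : logv ∉ stab (asymCheck exA exB) := by
  intro h
  have := form_mem_span logu_comm h
  rw [logu_logv] at this
  exact absurd this (by decide)

/-- Error supported on at most two qubits. -/
def err (p q : Dic) (s t u w : ZMod 2) : Pauli Dic :=
  (s • pt p + t • pt q, u • pt p + w • pt q)

theorem exists_err (v : Pauli Dic) (hv : weight v ≤ 2) :
    ∃ p q s t u w, v = err p q s t u w := by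
  classical
  obtain ⟨p, q, hpq⟩ : ∃ p q : Dic,
      (univ.filter fun r => v.1 r ≠ 0 ∨ v.2 r ≠ 0) ⊆ {p, q} := by
    rw [weight] at hv
    generalize (univ.filter fun r => v.1 r ≠ 0 ∨ v.2 r ≠ 0) = T at hv
    by_cases h2 : T.card = 2
    · obtain ⟨p, q, -, rfl⟩ := card_eq_two.mp h2
      exact ⟨p, q, Subset.rfl⟩
    · by_cases h1 : T.card = 1
      · obtain ⟨p, rfl⟩ := card_eq_one.mp h1
        exact ⟨p, p, by simp⟩
      · have : T.card = 0 := by omega
        rw [card_eq_zero] at this
        subst this
        exact ⟨1, 1, empty_subset _⟩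
  have hz : ∀ r, r ≠ p → r ≠ q → v.1 r = 0 ∧ v.2 r = 0 := by
    intro r h1 h2
    by_contra hcon
    have : r ∈ (univ.filter fun r => v.1 r ≠ 0 ∨ v.2 r ≠ 0) := by
      rw [mem_filter]
      refine ⟨mem_univ _, ?_⟩
      by_contra h
      push Not at h
      exact hcon h
    have := hpq this
    rw [mem_insert, mem_singleton] at this
    rcases this with h | h
    · exact h1 h
    · exact h2 h
  by_cases hpq' : p = q
  · subst hpq'
    refine ⟨p, p, v.1 p, 0, v.2 p, 0, ?_⟩
    refine Prod.ext ?_ ?_ <;> funext r <;> by_cases h : r = p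
    · subst h; simp [err, pt]
    · simp [err, pt, h, (hz r h h).1]
    · subst h; simp [err, pt]
    · simp [err, pt, h, (hz r h h).2]
  · refine ⟨p, q, v.1 p, v.1 q, v.2 p, v.2 q, ?_⟩
    refine Prod.ext ?_ ?_ <;> funext r <;> by_cases h : r = p
    · subst h; simp [err, pt, hpq']
    · by_cases h' : r = q
      · subst h'; simp [err, pt, h]
      · simp [err, pt, h, h', (hz r h h').1]
    · subst h; simp [err, pt, hpq']
    · by_cases h' : r = q
      · subst h'; simp [err, pt, h]
      · simp [err, pt, h, h', (hz r h h').2]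

/-- Syndromes of the elementary errors, as a table. -/
def synZ (p : Dic) : Dic → ZMod 2 := fun g => (asymCheck exA exB g).2 p

/-- Syndromes of the elementary errors, as a table. -/
def synX (p : Dic) : Dic → ZMod 2 := fun g => (asymCheck exA exB g).1 p

theorem err_comm : ∀ (p q : Dic) (s t u w : ZMod 2),
    (∀ g, s * synZ p g + t * synZ q g + u * synX p g + w * synX q g = 0) →
    err p q s t u w = 0 := by
  decide +kernel

theorem form_Z (p : Dic) (v : Pauli Dic) : form (pt p, 0) v = v.2 p := by
  simp [form, pt, Pi.single_apply]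

theorem form_X (p : Dic) (v : Pauli Dic) : form (0, pt p) v = v.1 p := by
  simp [form, pt, Pi.single_apply]

theorem err_eq (p q : Dic) (s t u w : ZMod 2) :
    err p q s t u w = s • ((pt p, 0) : Pauli Dic) + t • ((pt q, 0) : Pauli Dic)
      + u • ((0, pt p) : Pauli Dic) + w • ((0, pt q) : Pauli Dic) := by
  refine Prod.ext ?_ ?_
  · simp [err]
  · simp [err]

theorem form_err (p q : Dic) (s t u w : ZMod 2) (g : Dic) :
    form (err p q s t u w) (asymCheck exA exB g) =
      s * synZ p g + t * synZ q g + u * synX p g + w * synX q g := by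
  rw [err_eq, form_add_left, form_add_left, form_add_left, form_smul_left, form_smul_left,
    form_smul_left, form_smul_left, form_Z, form_Z, form_X, form_X]
  rfl

theorem ex_distance : distance (asymCheck exA exB) = 3 := by
  have hmem : 3 ∈ {w | ∃ v : Pauli Dic, (∀ g, form v (asymCheck exA exB g) = 0) ∧
      v ∉ stab (asymCheck exA exB) ∧ weight v = w} :=
    ⟨logv, logv_comm, logv_not_mem, weight_logv⟩
  refine le_antisymm (Nat.sInf_le hmem) ?_
  refine le_csInf ⟨3, hmem⟩ ?_
  rintro w ⟨v, hv1, hv2, rfl⟩
  by_contra hcon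
  have hw : weight v ≤ 2 := by omega
  obtain ⟨p, q, s, t, u, w, rfl⟩ := exists_err v hw
  apply hv2
  rw [err_comm p q s t u w fun g => by rw [← form_err]; exact hv1 g]
  exact Submodule.zero_mem _

end Pool.Agent.Lib.MP_91138c_lc
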