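import Pool.Agent.Lib.MP_91138c_lc.Twelve

/-!
# No abelian mirror code is at least as good as [[12, 5, 3]]
-/

namespace Pool.Agent.Lib.MP_91138c_lc

open Finset Module

variable {H : Type*} [CommGroup H] [Fintype H] [DecidableEq H]

/-- Indicator function. -/
def ind (A : Finset H) : Fn H := fun q => if q ∈ A then 1 else 0

omit [Fintype H] in
theorem symCheck_eq (A B : Finset H) : symCheck A B = chk (ind A) (ind B) := by
  funext g
  refine Prod.ext ?_ ?_
  · funext q
    simp only [symCheck, zx, chk, tr_apply, ind]
    have : q ∈ A.image (· * g) ↔ g⁻¹ * q ∈ A := by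
      rw [mem_image]
      constructor
      · rintro ⟨x, hx, rfl⟩
        rwa [mul_comm x g, inv_mul_cancel_left]
      · intro h
        exact ⟨_, h, by rw [mul_comm, mul_inv_cancel_left]⟩
    by_cases h : g⁻¹ * q ∈ A
    · rw [if_pos (this.mpr h), if_pos h]
    · rw [if_neg (fun h' => h (this.mp h')), if_neg h]
  · funext q
    simp only [symCheck, zx, chk, tr_apply, ind, inv_inv]
    have : q ∈ B.image (· * g⁻¹) ↔ g * q ∈ B := by
      rw [mem_image]
      constructor
      · rintro ⟨x, hx, rfl⟩
        rwa [mul_comm x g⁻¹, mul_inv_cancel_left]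
      · intro h
        exact ⟨_, h, by rw [mul_comm, inv_mul_cancel_left]⟩
    by_cases h : g * q ∈ B
    · rw [if_pos (this.mpr h), if_pos h]
    · rw [if_neg (fun h' => h (this.mp h')), if_neg h]

theorem no_abelian (A B : Finset H) :
    ¬ AtLeastAsGood (Fintype.card H) (logicalQubits (symCheck A B)) (distance (symCheck A B))
      12 5 3 := by
  rintro ⟨hn, hk, hd⟩
  have hd : 3 ≤ distance (symCheck A B) := by
    rcases hd with h | h
    · omega
    · exact h
  rw [symCheck_eq] at hk hd
  have hg : Good (ind A) (ind B) := by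
    constructor
    · unfold logicalQubits at hk
      omega
    · intro v hv hs
      by_contra hcon
      have : distance (chk (ind A) (ind B)) ≤ weight v :=
        Nat.sInf_le ⟨v, fun g => congrFun hs g, hcon, rfl⟩
      omega
  have h1 := hg.ten_le hn
  have h2 := hg.ne_ten
  have h3 := hg.ne_eleven
  have h4 := hg.ne_twelve
  omega

end Pool.Agent.Lib.MP_91138c_lc
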