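import Pool.Agent.Lib.MP_91138c_lc.Basic

/-!
# Abelian mirror codes with n ≤ 12, k ≥ 5, d ≥ 3: no degeneracy
-/

set_option linter.unusedSectionVars false

namespace Pool.Agent.Lib.MP_91138c_lc

open Finset Module

variable {H : Type*} [CommGroup H] [Fintype H] [DecidableEq H]

/-- An abelian mirror code with `k ≥ 5` and `d ≥ 3`. -/
structure Good (a b : Fn H) : Prop where
  card5 : finrank (ZMod 2) (stab (chk a b)) + 5 ≤ Fintype.card H
  det : ∀ v : Pauli H, weight v ≤ 2 → syn a b v = 0 → v ∈ stab (chk a b)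

/-- Exchange of the two components. -/
def swapL : Pauli H ≃ₗ[ZMod 2] Pauli H := LinearEquiv.prodComm (ZMod 2) (Fn H) (Fn H)

@[simp] theorem swapL_apply (v : Pauli H) : swapL v = (v.2, v.1) := rfl

theorem swapL_chk (a b : Fn H) (g : H) : swapL (chk a b g) = chk b a g⁻¹ := by
  simp [chk]

theorem stab_swap (a b : Fn H) :
    stab (chk b a) = (stab (chk a b)).map (swapL (H := H)).toLinearMap := by
  rw [stab, stab, Submodule.map_span]
  congr 1
  ext v
  constructor
  · rintro ⟨g, rfl⟩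
    exact ⟨chk a b g⁻¹, ⟨g⁻¹, rfl⟩, by
      change swapL (chk a b g⁻¹) = _
      rw [swapL_chk, inv_inv]⟩
  · rintro ⟨_, ⟨g, rfl⟩, rfl⟩
    exact ⟨g⁻¹, (swapL_chk a b g).symm⟩

theorem mem_stab_swap (a b : Fn H) (z x : Fn H) :
    (z, x) ∈ stab (chk b a) ↔ (x, z) ∈ stab (chk a b) := by
  rw [stab_swap, Submodule.mem_map]
  constructor
  · rintro ⟨⟨y1, y2⟩, hy, h⟩
    have h1 : (y2, y1) = (z, x) := h
    obtain ⟨rfl, rfl⟩ := Prod.mk.inj h1
    exact hy
  · intro h
    exact ⟨(x, z), h, rfl⟩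

theorem form_swap (u v : Pauli H) : form (swapL u) (swapL v) = form u v := by
  simp only [form, swapL_apply]
  refine sum_congr rfl fun q _ => ?_
  ring

theorem syn_swap (a b : Fn H) (z x : Fn H) (g : H) :
    syn b a (x, z) g = syn a b (z, x) g⁻¹ := by
  have h := form_swap (z, x) (chk a b g⁻¹)
  rw [swapL_chk, inv_inv] at h
  exact h

theorem Good.swap {a b : Fn H} (hg : Good a b) : Good b a := by
  refine ⟨?_, ?_⟩
  · have := hg.card5
    rw [stab_swap, LinearEquiv.finrank_map_eq]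
    exact this
  · rintro ⟨x, z⟩ hw hs
    rw [mem_stab_swap]
    refine hg.det (z, x) ?_ ?_
    · refine le_trans (le_of_eq ?_) hw
      simp only [weight]
      congr 1
      ext q
      simp [or_comm]
    · funext g
      have := syn_swap a b z x g⁻¹
      rw [inv_inv] at this
      rw [← this, hs]
      rfl

theorem sum_pt (f : Fn H) : f = ∑ q, f q • pt q := by
  funext p
  simp [pt, Pi.single_apply, Finset.sum_apply]

theorem eq_top_of_pt {W : Submodule (ZMod 2) (Fn H)} (h : ∀ p, pt p ∈ W) : W = ⊤ := by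
  rw [eq_top_iff]
  intro f _
  rw [sum_pt f]
  exact Submodule.sum_mem _ fun q _ => Submodule.smul_mem _ _ (h q)

theorem finrank_Fn : finrank (ZMod 2) (Fn H) = Fintype.card H := finrank_fintype_fun_eq_card _

/-- The `z`-parts of elements of `V`. -/
def P1 (a b : Fn H) : Submodule (ZMod 2) (Fn H) :=
  (stab (chk a b)).map (LinearMap.fst (ZMod 2) (Fn H) (Fn H))

/-- The elements `x` with `(0, x) ∈ V`. -/
def Q2 (a b : Fn H) : Submodule (ZMod 2) (Fn H) :=
  (stab (chk a b)).comap (LinearMap.inr (ZMod 2) (Fn H) (Fn H))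

theorem mem_P1 {a b z : Fn H} : z ∈ P1 a b ↔ ∃ x, (z, x) ∈ stab (chk a b) := by
  constructor
  · rintro ⟨⟨z', x⟩, h, rfl⟩; exact ⟨x, h⟩
  · rintro ⟨x, h⟩; exact ⟨(z, x), h, rfl⟩

theorem mem_Q2 {a b x : Fn H} : x ∈ Q2 a b ↔ (0, x) ∈ stab (chk a b) := Iff.rfl

theorem finrank_add_le (a b : Fn H) :
    finrank (ZMod 2) (P1 a b) + finrank (ZMod 2) (Q2 a b) ≤ finrank (ZMod 2) (stab (chk a b)) := by
  let f := (LinearMap.fst (ZMod 2) (Fn H) (Fn H)).domRestrict (stab (chk a b))
  have h2 : LinearMap.range f = P1 a b := by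
    rw [P1, LinearMap.range_domRestrict]
  have h1 : finrank (ZMod 2) (LinearMap.range f) + finrank (ZMod 2) (LinearMap.ker f) =
      finrank (ZMod 2) (stab (chk a b)) := LinearMap.finrank_range_add_finrank_ker f
  rw [h2] at h1
  let e : Q2 a b →ₗ[ZMod 2] LinearMap.ker f :=
    { toFun := fun x => ⟨⟨(0, x.1), x.2⟩, rfl⟩
      map_add' := fun x y => by
        apply Subtype.ext; apply Subtype.ext
        simp
      map_smul' := fun c x => by
        apply Subtype.ext; apply Subtype.ext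
        simp }
  have h3 : Function.Injective e := by
    intro x y hxy
    have h4 : (⟨(0, x.1), x.2⟩ : stab (chk a b)) = ⟨(0, y.1), y.2⟩ := congrArg Subtype.val hxy
    have h5 : ((0, x.1) : Pauli H) = (0, y.1) := congrArg Subtype.val h4
    exact Subtype.ext (Prod.mk.inj h5).2
  have h6 := LinearMap.finrank_le_finrank_of_injective h3
  calc _ ≤ finrank (ZMod 2) (P1 a b) + finrank (ZMod 2) (LinearMap.ker f) :=
        Nat.add_le_add_left h6 _
    _ = _ := h1

theorem P1_tr {a b : Fn H} (g : H) {z : Fn H} (hz : z ∈ P1 a b) : tr g z ∈ P1 a b := by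
  rw [mem_P1] at *
  obtain ⟨x, hx⟩ := hz
  exact ⟨_, tau_mem a b g hx⟩

theorem a_mem_P1 (a b : Fn H) : a ∈ P1 a b := by
  rw [mem_P1]
  exact ⟨b, Submodule.subset_span ⟨1, by simp [chk]⟩⟩

variable {a b : Fn H}

/-- No element of `V` has a `z`-part supported on one point. -/
theorem Good.pt_not_mem (hg : Good a b) (p : H) (x : Fn H) : (pt p, x) ∉ stab (chk a b) := by
  intro h
  have h1 : P1 a b = ⊤ := by
    refine eq_top_of_pt fun q => ?_
    have := P1_tr (a := a) (b := b) (q * p⁻¹) (mem_P1.mpr ⟨x, h⟩)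
    rwa [tr_pt, inv_mul_cancel_right] at this
  have h2 := finrank_add_le a b
  rw [h1, finrank_top, finrank_Fn] at h2
  have := hg.card5
  omega

theorem Good.pt_not_mem' (hg : Good a b) (p : H) (z : Fn H) : (z, pt p) ∉ stab (chk a b) := by
  intro h
  exact hg.swap.pt_not_mem p z ((mem_stab_swap a b (pt p) z).mpr h)

theorem weight_pair (z x : Fn H) (p q : H) (hz : ∀ r, r ≠ p → r ≠ q → z r = 0)
    (hx : ∀ r, r ≠ p → r ≠ q → x r = 0) : weight (z, x) ≤ 2 := by
  refine le_trans (card_le_card (t := {p, q}) ?_) card_le_two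
  intro r hr
  simp only [mem_filter, mem_univ, true_and] at hr
  by_contra h
  simp only [mem_insert, mem_singleton, not_or] at h
  rcases hr with hr | hr
  · exact hr (hz r h.1 h.2)
  · exact hr (hx r h.1 h.2)

theorem pt_ne {p r : H} (h : r ≠ p) : pt p r = 0 := by simp [pt, h]

theorem pt_self (p : H) : pt p p = 1 := by simp [pt]

theorem pt_ne_zero (p : H) : pt p ≠ 0 := fun h => by
  have := congrFun h p
  rw [pt_self] at this
  exact one_ne_zero this

theorem N_pt (h p : H) : N h (pt p) = pt p + pt (h * p) := by rw [N_apply, tr_pt]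

theorem range_N_le {h : H} {W : Submodule (ZMod 2) (Fn H)} (hW : ∀ p, N h (pt p) ∈ W) :
    LinearMap.range (N h) ≤ W := by
  rintro _ ⟨f, rfl⟩
  rw [sum_pt f, map_sum]
  refine Submodule.sum_mem _ fun q _ => ?_
  rw [map_smul]
  exact Submodule.smul_mem _ _ (hW q)

theorem finrank_range_N (h : H) :
    finrank (ZMod 2) (LinearMap.range (N h)) + finrank (ZMod 2) (LinearMap.ker (N h)) =
      Fintype.card H := by
  rw [LinearMap.finrank_range_add_finrank_ker, finrank_Fn]

theorem tr_eq_self_of_finrank_le_one {W : Submodule (ZMod 2) (Fn H)}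
    (hW : finrank (ZMod 2) W ≤ 1) {g : H} (hg : ∀ f ∈ W, tr g f ∈ W) {f : Fn H} (hf : f ∈ W) :
    tr g f = f := by
  obtain ⟨v, hv⟩ := finrank_le_one_iff.mp hW
  obtain ⟨c, hc⟩ := hv ⟨f, hf⟩
  obtain ⟨d, hd⟩ := hv ⟨tr g f, hg f hf⟩
  have hc' : c • v.1 = f := congrArg Subtype.val hc
  have hd' : d • v.1 = tr g f := congrArg Subtype.val hd
  have key : ∀ c : ZMod 2, c = 0 ∨ c = 1 := by decide
  rcases key c with rfl | rfl <;> rcases key d with rfl | rfl
  · exact hd'.symm.trans hc'
  · rw [zero_smul] at hc'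
    rw [← hc', map_zero]
  · rw [zero_smul] at hd'
    have : f = 0 := tr_inj g (by rw [← hd', map_zero])
    rw [this, map_zero]
  · exact hd'.symm.trans hc'

/-- Rank-nullity on a subspace. -/
theorem finrank_map_add (f : Fn H →ₗ[ZMod 2] Fn H) (W : Submodule (ZMod 2) (Fn H)) :
    finrank (ZMod 2) (W.map f) + finrank (ZMod 2) (W ⊓ LinearMap.ker f : Submodule (ZMod 2) (Fn H)) =
      finrank (ZMod 2) W := by
  have h1 : finrank (ZMod 2) (LinearMap.range (f.domRestrict W)) +
      finrank (ZMod 2) (LinearMap.ker (f.domRestrict W)) = finrank (ZMod 2) W :=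
    LinearMap.finrank_range_add_finrank_ker _
  have h2 : LinearMap.range (f.domRestrict W) = W.map f := LinearMap.range_domRestrict _ _
  have h3 : LinearMap.ker (f.domRestrict W) =
      Submodule.comap W.subtype (W ⊓ LinearMap.ker f) := by
    rw [LinearMap.ker_domRestrict, Submodule.comap_inf, Submodule.comap_subtype_self, top_inf_eq]
  have h4 := (Submodule.comapSubtypeEquivOfLe (p := W ⊓ LinearMap.ker f) (q := W)
    inf_le_left).finrank_eq
  rw [← h1, h2, h3, h4]

theorem N_N {h : H} (hh : h * h = 1) (f : Fn H) : N h (N h f) = 0 := by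
  simp only [N_apply, map_add, tr_tr, hh, tr_one]
  have : f + tr h f + (tr h f + f) = (f + f) + (tr h f + tr h f) := by abel
  rw [this, add_self, add_self, add_zero]

theorem tr_N (g h : H) (f : Fn H) : tr g (N h f) = N h (tr g f) := by
  simp only [N_apply, map_add, tr_comm g h]

theorem eq_one_of_invariant {f : Fn H} (h : ∀ g, tr g f = f) (h0 : f ≠ 0) : f = 1 := by
  have h1 : ∀ q, f q = f 1 := by
    intro q
    have := congrFun (h q⁻¹) 1
    simpa using this
  have key : ∀ c : ZMod 2, c = 0 ∨ c = 1 := by decide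
  rcases key (f 1) with h2 | h2
  · exact absurd (funext fun q => by rw [h1 q, h2]; rfl) h0
  · funext q; rw [h1 q, h2]; rfl

/-- The reflected function. -/
def ia (a : Fn H) : Fn H := fun g => a g⁻¹

@[simp] theorem ia_apply (a : Fn H) (g : H) : ia a g = a g⁻¹ := rfl

theorem tr_ia (g : H) (a : Fn H) : tr g (ia a) = ia (tr g⁻¹ a) := by
  funext q; simp [mul_comm]

theorem syn_X' (p : H) : syn a b (0, pt p) = tr p (ia a) := syn_X a b p

theorem syn_pair (z x : Fn H) : syn a b (z, x) = syn a b (z, 0) + syn a b (0, x) := by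
  rw [← map_add]; simp

theorem Good.X_mem (hg : Good a b) {p q : H} (h : tr p (ia a) = tr q (ia a)) :
    pt p + pt q ∈ Q2 a b := by
  rw [mem_Q2]
  refine hg.det _ (weight_pair _ _ p q (fun _ _ _ => rfl) fun r h1 h2 => ?_) ?_
  · simp [pt_ne h1, pt_ne h2]
  · have e : ((0, pt p + pt q) : Pauli H) = (0, pt p) + (0, pt q) := by simp
    rw [e, map_add, syn_X', syn_X', h, add_self]

/-- The function `a` has no period. -/
theorem Good.tr_ne (hg : Good a b) (hn : Fintype.card H ≤ 12) {h : H} (hh : h ≠ 1) :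
    tr h a ≠ a := by
  intro ha
  have hia : tr h (ia a) = ia a := by
    rw [tr_ia]
    congr 1
    conv_lhs => rw [← ha]
    rw [tr_tr, inv_mul_cancel, tr_one]
  have h1 : LinearMap.range (N h) ≤ Q2 a b := by
    refine range_N_le fun p => ?_
    rw [N_pt]
    refine hg.X_mem ?_
    rw [mul_comm, ← tr_tr, hia]
  have h2 := Submodule.finrank_mono h1
  have h3 := finrank_range_N (H := H) h
  have h4 := finrank_ker_N (H := H) h
  have h5 : 2 ≤ orderOf h := by
    have : orderOf h ≠ 1 := fun h => hh (orderOf_eq_one_iff.mp h)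
    have := orderOf_pos h
    omega
  have h6 := finrank_add_le a b
  have h7 := hg.card5
  have h8 : 2 * finrank (ZMod 2) (LinearMap.ker (N h)) ≤ Fintype.card H :=
    (Nat.mul_le_mul_right _ h5).trans h4
  have h9 : finrank (ZMod 2) (P1 a b) ≤ 1 := by omega
  have h10 : ∀ g : H, tr g a = a := fun g =>
    tr_eq_self_of_finrank_le_one h9 (fun f hf => P1_tr g hf) (a_mem_P1 a b)
  have h11 : ∀ p : H, pt p + pt 1 ∈ Q2 a b := fun p => hg.X_mem (by
    rw [tr_ia, tr_ia, h10, h10])
  have h12 : Q2 a b ⊔ Submodule.span (ZMod 2) {pt 1} = ⊤ := by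
    refine eq_top_of_pt fun p => ?_
    have e : pt p = (pt p + pt 1) + pt (1 : H) := by rw [add_assoc, add_self, add_zero]
    rw [e]
    exact Submodule.add_mem_sup (h11 p) (Submodule.subset_span rfl)
  have h13 := Submodule.finrank_add_le_finrank_add_finrank (Q2 a b)
    (Submodule.span (ZMod 2) {pt (1 : H)})
  have h14 : finrank (ZMod 2) (Submodule.span (ZMod 2) {pt (1 : H)}) ≤ 1 :=
    (finrank_span_singleton (pt_ne_zero 1)).le
  rw [h12, finrank_top, finrank_Fn] at h13
  omega

theorem Good.aux (hg : Good a b) (hn : Fintype.card H ≤ 12) {h : H} (hh : h ≠ 1) {p : H}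
    (hp : (N h (pt p), N h (pt p)) ∈ stab (chk a b)) :
    h * h = 1 ∧ Fintype.card H = 12 ∧ Q2 a b = ⊥ ∧ N h a = 1 := by
  have h1 : LinearMap.range (N h) ≤ P1 a b := by
    refine range_N_le fun q => ?_
    have := P1_tr (a := a) (b := b) (q * p⁻¹) (mem_P1.mpr ⟨_, hp⟩)
    rwa [tr_N, tr_pt, inv_mul_cancel_right] at this
  have h2 := Submodule.finrank_mono h1
  have h3 := finrank_range_N (H := H) h
  have h4 := finrank_ker_N (H := H) h
  have h5 : 2 ≤ orderOf h := by
    have : orderOf h ≠ 1 := fun h => hh (orderOf_eq_one_iff.mp h)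
    have := orderOf_pos h
    omega
  have h6 := finrank_add_le a b
  have h7 := hg.card5
  have h8 : 5 ≤ finrank (ZMod 2) (LinearMap.ker (N h)) := by omega
  have h9 : orderOf h * 5 ≤ 12 := (Nat.mul_le_mul_left _ h8).trans (h4.trans hn)
  have h10 : orderOf h = 2 := by omega
  have hh2 : h * h = 1 := by
    rw [← pow_two, ← h10, pow_orderOf_eq_one]
  have h11 : LinearMap.range (N h) ≤ LinearMap.ker (N h) := by
    rintro _ ⟨f, rfl⟩
    exact N_N hh2 f
  have h12 := Submodule.finrank_mono h11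
  rw [h10] at h4
  have ha : a ∉ LinearMap.ker (N h) := fun ha => hg.tr_ne hn hh (mem_ker_N.mp ha)
  have h13 : LinearMap.range (N h) < P1 a b := by
    refine lt_of_le_of_ne h1 fun h => ha (h11 ?_)
    rw [h]; exact a_mem_P1 a b
  have h14 := Submodule.finrank_lt_finrank_of_lt h13
  have h15 : Fintype.card H = 12 := by omega
  have h16 : finrank (ZMod 2) (Q2 a b) = 0 := by omega
  refine ⟨hh2, h15, Submodule.finrank_eq_zero.mp h16, ?_⟩
  have h17 : LinearMap.range (N h) = LinearMap.ker (N h) :=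
    Submodule.eq_of_le_of_finrank_eq h11 (by omega)
  have h18 := finrank_map_add (N h) (P1 a b)
  have h19 : P1 a b ⊓ LinearMap.ker (N h) = LinearMap.ker (N h) := by
    rw [inf_eq_right, ← h17]; exact h1
  rw [h19] at h18
  have h20 : finrank (ZMod 2) ((P1 a b).map (N h)) ≤ 1 := by omega
  refine eq_one_of_invariant (fun g => tr_eq_self_of_finrank_le_one h20 ?_
    ⟨a, a_mem_P1 a b, rfl⟩) ha
  rintro _ ⟨f, hf, rfl⟩
  rw [tr_N]
  exact ⟨_, P1_tr g hf, rfl⟩

theorem tr_const_one (g : H) : tr g (1 : Fn H) = 1 := rfl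

/-- The syndromes of the `Y` errors are pairwise different. -/
theorem Good.Y_ne (hg : Good a b) (hn : Fintype.card H ≤ 12) {h p : H} (hh : h ≠ 1) :
    (N h (pt p), N h (pt p)) ∉ stab (chk a b) := by
  intro hp
  obtain ⟨hh2, h12, hQ, hNa⟩ := hg.aux hn hh hp
  obtain ⟨-, -, -, hNb⟩ := hg.swap.aux hn hh ((mem_stab_swap a b _ _).mpr hp)
  have hinv : h⁻¹ = h := inv_eq_of_mul_eq_one_left hh2
  have h1 : ∀ u : H, (N h (pt u), N h (pt u)) ∈ stab (chk a b) := by
    intro u
    refine hg.det _ (weight_pair _ _ u (h * u) ?_ ?_) ?_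
    · intro r h1 h2; rw [N_pt]; simp [pt_ne h1, pt_ne h2]
    · intro r h1 h2; rw [N_pt]; simp [pt_ne h1, pt_ne h2]
    · rw [syn_pair]
      have e1 : syn a b (N h (pt u), 0) = 1 := by
        have e : ((N h (pt u), 0) : Pauli H) = (pt u, 0) + (pt (h * u), 0) := by
          rw [N_pt]; simp
        rw [e, map_add, syn_Z, syn_Z, mul_inv_rev, ← tr_tr, ← map_add, hinv,
          ← N_apply, hNb, tr_const_one]
      have e2 : syn a b (0, N h (pt u)) = 1 := by
        have e : ((0, N h (pt u)) : Pauli H) = (0, pt u) + (0, pt (h * u)) := by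
          rw [N_pt]; simp
        rw [e, map_add, syn_X', syn_X', mul_comm h u, ← tr_tr, ← map_add, tr_ia, hinv]
        have e3 : ia a + ia (tr h a) = ia (N h a) := rfl
        rw [e3, hNa]
        rfl
      rw [e1, e2, add_self]
  obtain ⟨w, hw⟩ := exists_prime_orderOf_dvd_card (G := H) 3 (by rw [h12]; norm_num)
  have h2 := h1 w
  have h3 := tau_mem a b w (h1 1)
  rw [tau_apply] at h3
  simp only [tr_N, tr_pt, mul_one] at h3
  have h4 := Submodule.add_mem _ h2 h3
  have h5 : ((N h (pt w), N h (pt w)) : Pauli H) + (N h (pt w), N h (pt w⁻¹)) =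
      (0, N h (pt w) + N h (pt w⁻¹)) := by
    simp [add_self]
  rw [h5] at h4
  have h6 : N h (pt w) + N h (pt w⁻¹) = 0 := by
    have : N h (pt w) + N h (pt w⁻¹) ∈ Q2 a b := h4
    rwa [hQ, Submodule.mem_bot] at this
  have hw3 : w ^ 3 = 1 := by rw [← hw, pow_orderOf_eq_one]
  have hw1 : w ≠ 1 := fun h => by rw [h, orderOf_one] at hw; omega
  have hw2 : w ≠ w⁻¹ := by
    intro h
    have : w ^ 2 = 1 := by rw [pow_two]; nth_rewrite 2 [h]; simp
    have := orderOf_dvd_of_pow_eq_one this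
    rw [hw] at this
    omega
  have hw4 : w ≠ h * w := by
    intro h'
    exact hh (by simpa using h'.symm)
  have hw5 : w ≠ h * w⁻¹ := by
    intro h'
    have e : w ^ 2 = h := by
      rw [pow_two]; nth_rewrite 1 [h']; simp
    have : w ^ 4 = 1 := by
      rw [show (4 : ℕ) = 2 * 2 from rfl, pow_mul, e, pow_two, hh2]
    have h8 := orderOf_dvd_of_pow_eq_one this
    rw [hw] at h8
    omega
  have h7 := congrFun h6 w
  rw [N_pt, N_pt] at h7
  simp only [Pi.add_apply, pt_self, pt_ne hw4, pt_ne hw2, pt_ne hw5, Pi.zero_apply,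
    add_zero] at h7
  exact one_ne_zero h7

end Pool.Agent.Lib.MP_91138c_lc
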