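import Pool.Agent.Lib.MP_91138c_lc.Abelian

/-!
# The case n = 12
-/

set_option linter.unusedSectionVars false

namespace Pool.Agent.Lib.MP_91138c_lc

open Finset Module

variable {H : Type*} [CommGroup H] [Fintype H] [DecidableEq H] {a b : Fn H}

theorem zmod_cases (c : ZMod 2) : c = 0 ∨ c = 1 := by revert c; decide

theorem invariant_cases {f : Fn H} (h : ∀ g, tr g f = f) : f = 0 ∨ f = 1 := by
  by_cases h0 : f = 0
  · exact Or.inl h0
  · exact Or.inr (eq_one_of_invariant h h0)

/-- Facts about `Y` collisions for an involution. -/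
theorem Good.inv_nocoll (hg : Good a b) (hn : Fintype.card H ≤ 12) {h : H} (hh : h ≠ 1)
    (hh2 : h * h = 1) {i : H} (hi : i ^ 3 = 1) : tr i (N h b) ≠ N h (ia a) := by
  have h1 := hg.nocoll hn hh i
  have e1 : i⁻¹ * i⁻¹ = i := by
    have : i * i * i = 1 := by rw [← hi]; simp [pow_succ]
    rw [← mul_inv_rev]
    exact inv_eq_of_mul_eq_one_right (by rw [← this])
  rw [e1, inv_eq_of_mul_eq_one_left hh2] at h1
  exact h1

theorem one_add_one_add_one_ne : ¬ ((1 : ZMod 2) + 1 + 1 = 0) := by decide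

/-- The case `n = 12`. -/
theorem Good.ne_twelve (hg : Good a b) : Fintype.card H ≠ 12 := by
  intro hn
  have hn' : Fintype.card H ≤ 12 := hn.le
  haveI : Fact (Nat.Prime 2) := ⟨by norm_num⟩
  haveI : Fact (Nat.Prime 3) := ⟨by norm_num⟩
  obtain ⟨w, hwo⟩ := exists_prime_orderOf_dvd_card (G := H) 3 (by rw [hn]; norm_num)
  have hw3 : w ^ 3 = 1 := orderOf_prime_pow hwo
  have hw1 : w ≠ 1 := fun h => by rw [h, orderOf_one] at hwo; omega
  have hw3' : w * w * w = 1 := by rw [← hw3]; simp [pow_succ]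
  obtain ⟨h0, hho⟩ := exists_prime_orderOf_dvd_card (G := H) 2 (by rw [hn]; norm_num)
  have hh1 : h0 ≠ 1 := fun h => by rw [h, orderOf_one] at hho; omega
  have hh2 : h0 * h0 = 1 := by rw [← pow_two]; exact orderOf_prime_pow hho
  -- the two parts of `J`
  set J' : Submodule (ZMod 2) (Fn H) := (J a b).map (N w) with hJ'
  set J1 : Submodule (ZMod 2) (Fn H) := J a b ⊓ LinearMap.ker (N w) with hJ1
  have hJinv : TrInv (J a b) := fun g f hf => J_tr g hf
  have hJ'inv : TrInv J' := hJinv.map_N w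
  have hJ1inv : TrInv J1 := hJinv.inf_ker w
  have hJ'M : ∀ f ∈ J', KM w f := by
    rintro _ ⟨f, hf, rfl⟩
    unfold KM
    simp only [N_apply, map_add, tr_tr, hw3', tr_one]
    have : f + tr w f + (tr w f + tr (w * w) f) + (tr (w * w) f + f) =
      (f + f) + (tr w f + tr w f) + (tr (w * w) f + tr (w * w) f) := by abel
    rw [this]
    simp only [add_self, add_zero]
  have hsplit : finrank (ZMod 2) J' + finrank (ZMod 2) J1 = finrank (ZMod 2) (J a b) :=
    finrank_map_add (N w) (J a b)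
  have hJle : finrank (ZMod 2) (J a b) ≤ 7 := by have := hg.finrank_J; omega
  have hJ'even := even_finrank hw3 hJ'inv hJ'M
  -- decomposition of elements
  have hdec : ∀ f ∈ J a b, ∃ f1 ∈ J1, ∃ f2 ∈ J', f = f1 + f2 := by
    intro f hf
    refine ⟨f + tr w f + tr (w * w) f, ⟨?_, ?_⟩, tr w f + tr (w * w) f, ?_, ?_⟩
    · exact Submodule.add_mem _ (Submodule.add_mem _ hf (J_tr _ hf)) (J_tr _ hf)
    · refine mem_ker_N.mpr ?_
      simp only [map_add, tr_tr, ← mul_assoc, hw3', tr_one]
      abel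
    · refine ⟨tr w f, J_tr _ hf, ?_⟩
      rw [N_apply, tr_tr]
    · have : f + tr w f + tr (w * w) f + (tr w f + tr (w * w) f) =
        f + (tr w f + tr w f) + (tr (w * w) f + tr (w * w) f) := by abel
      rw [this, add_self, add_self, add_zero, add_zero]
  -- case (ii): `J'` is small
  have hJ'2 : ¬ finrank (ZMod 2) J' ≤ 2 := by
    intro hle
    have hx : N w⁻¹ b ∈ J' := by
      refine ⟨tr w⁻¹ b, J_tr _ b_mem_J, ?_⟩
      rw [N_apply, N_apply, tr_tr, mul_inv_cancel, tr_one, add_comm]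
    have hy : N w (ia a) ∈ J' := ⟨ia a, ia_mem_J, rfl⟩
    have hx0 : N w⁻¹ b ≠ 0 := fun h =>
      hg.b_ne hn' (h := w⁻¹) (by simpa using hw1) (mem_ker_N.mp h)
    have hy0 : N w (ia a) ≠ 0 := fun h => hg.ia_ne hn' hw1 (mem_ker_N.mp h)
    obtain ⟨i, hi, hi2⟩ := orbit hw3 hJ'inv hJ'M hle hx hy hx0 hy0
    refine hg.nocoll hn' hw1 i ?_
    have e1 : i⁻¹ * i⁻¹ = i := by
      have : i * i * i = 1 := by rw [← hi]; simp [pow_succ]
      rw [← mul_inv_rev]
      exact inv_eq_of_mul_eq_one_right (by rw [← this])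
    rw [e1]; exact hi2
  -- images under `N h` of the two parts
  have himg' : ∀ h : H, h * h = 1 → 2 * finrank (ZMod 2) (J'.map (N h)) ≤ finrank (ZMod 2) J' :=
    fun h hh => (two_mul_finrank_map hh (hJ'inv h)).1
  have himg1 : ∀ h : H, h * h = 1 → 2 * finrank (ZMod 2) (J1.map (N h)) ≤ finrank (ZMod 2) J1 :=
    fun h hh => (two_mul_finrank_map hh (hJ1inv h)).1
  have heven' : ∀ h : H, Even (finrank (ZMod 2) (J'.map (N h))) := by
    intro h
    refine even_finrank hw3 (hJ'inv.map_N h) ?_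
    rintro _ ⟨f, hf, rfl⟩
    exact (hJ'M f hf).N h
  have hM' : ∀ h : H, ∀ f ∈ J'.map (N h), KM w f := by
    rintro h _ ⟨f, hf, rfl⟩
    exact (hJ'M f hf).N h
  have hle6 : finrank (ZMod 2) J' ≤ 7 := by omega
  obtain ⟨kk, hkk⟩ := hJ'even
  have hsmall' : ∀ h : H, h * h = 1 → finrank (ZMod 2) (J'.map (N h)) ≤ 2 := by
    intro h hh
    have h1 := himg' h hh
    obtain ⟨k, hk⟩ := heven' h
    omega
  have hsmall1 : ∀ h : H, h * h = 1 → finrank (ZMod 2) (J1.map (N h)) ≤ 1 := by
    intro h hh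
    have h1 := himg1 h hh
    omega
  obtain ⟨b1, hb1, b2, hb2, hb⟩ := hdec b b_mem_J
  obtain ⟨a1, ha1, a2, ha2, ha⟩ := hdec (ia a) ia_mem_J
  -- elements coming from `J1` are constant
  have hinv1 : ∀ h : H, h * h = 1 → ∀ f ∈ J1, N h f = 0 ∨ N h f = 1 := by
    intro h hh f hf
    exact invariant_cases fun g => tr_eq_self_of_finrank_le_one (hsmall1 h hh)
      (fun k hk => hJ1inv.map_N h g k hk) ⟨f, hf, rfl⟩
  have hbh : ∀ h, N h b = N h b1 + N h b2 := fun h => by
    conv_lhs => rw [hb]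
    rw [map_add]
  have hah : ∀ h, N h (ia a) = N h a1 + N h a2 := fun h => by
    conv_lhs => rw [ha]
    rw [map_add]
  have hb0 : ∀ h : H, h ≠ 1 → N h b ≠ 0 := fun h hh h' => hg.b_ne hn' hh (mem_ker_N.mp h')
  have ha0 : ∀ h : H, h ≠ 1 → N h (ia a) ≠ 0 := fun h hh h' => hg.ia_ne hn' hh (mem_ker_N.mp h')
  have htr1 : ∀ (g : H) (f : Fn H), (f = 0 ∨ f = 1) → tr g f = f := by
    rintro g f (rfl | rfl)
    · exact map_zero _
    · rfl
  -- the key dichotomy
  have hkey : ∀ h : H, h ≠ 1 → h * h = 1 → N h b1 = N h a1 →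
      (N h b2 = 0 ∧ N h a2 ≠ 0) ∨ (N h b2 ≠ 0 ∧ N h a2 = 0) := by
    intro h hh hh2 heq
    by_cases c1 : N h b2 = 0 <;> by_cases c2 : N h a2 = 0
    · exfalso
      refine hg.inv_nocoll hn' hh hh2 (i := 1) (by simp) ?_
      rw [tr_one, hbh, hah, heq, c1, c2]
    · exact Or.inl ⟨c1, c2⟩
    · exact Or.inr ⟨c1, c2⟩
    · exfalso
      obtain ⟨i, hi, hi2⟩ := orbit hw3 (hJ'inv.map_N h) (hM' h) (hsmall' h hh2)
        ⟨b2, hb2, rfl⟩ ⟨a2, ha2, rfl⟩ c1 c2
      refine hg.inv_nocoll hn' hh hh2 hi ?_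
      rw [hbh, hah, map_add, hi2, htr1 i _ (hinv1 h hh2 b1 hb1), heq]
  -- second order differences vanish
  have hsecond : ∀ h k : H, h * h = 1 → k ^ 4 = 1 → ∀ f ∈ J', N k (N h f) = 0 := by
    intro h k hh hk f hf
    exact (N_eq_zero_of_small hw3 hk (hJ'inv.map_N h) (hM' h)).2 (hsmall' h hh) _ ⟨f, hf, rfl⟩
  have hsecond1 : ∀ h k : H, h * h = 1 → ∀ f ∈ J1, N k (N h f) = 0 := by
    intro h k hh f hf
    rw [N_apply, htr1 k _ (hinv1 h hh f hf), add_self]
  have hcases : finrank (ZMod 2) J' = 4 ∨ finrank (ZMod 2) J' = 6 := by omega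
  rcases hcases with h4 | h6
  swap
  · -- `J'` has dimension 6: then `J1` is trivial or consists of constants
    have hJ1le : finrank (ZMod 2) J1 ≤ 1 := by omega
    have hz : ∀ f ∈ J1, N h0 f = 0 := by
      intro f hf
      rw [N_apply, tr_eq_self_of_finrank_le_one hJ1le (fun k hk => hJ1inv h0 k hk) hf, add_self]
    rcases hkey h0 hh1 hh2 (by rw [hz b1 hb1, hz a1 ha1]) with ⟨c1, -⟩ | ⟨-, c2⟩
    · exact hb0 h0 hh1 (by rw [hbh, hz b1 hb1, c1, add_zero])
    · exact ha0 h0 hh1 (by rw [hah, hz a1 ha1, c2, add_zero])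
  · by_cases ht : ∃ t : H, orderOf t = 4
    · -- an element of order 4
      obtain ⟨t, ht⟩ := ht
      have ht4 : t ^ 4 = 1 := by rw [← ht, pow_orderOf_eq_one]
      have hh2 : (t * t) * (t * t) = 1 := by rw [← ht4]; simp [pow_succ, mul_assoc]
      have hh1 : t * t ≠ 1 := by
        intro h
        have := orderOf_dvd_of_pow_eq_one (show t ^ 2 = 1 by rw [pow_two, h])
        rw [ht] at this
        omega
      have hNt : ∀ f, N (t * t) f = N t (N t f) := by
        intro f
        simp only [N_apply, map_add, tr_tr]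
        have : f + tr t f + (tr t f + tr (t * t) f) = f + tr (t * t) f + (tr t f + tr t f) := by
          abel
        rw [this, add_self, add_zero]
      have hz : ∀ f ∈ J', N (t * t) f = 0 := by
        intro f hf
        rw [hNt]
        have h5 : J' ≠ ⊥ := by
          intro h
          rw [h, finrank_bot] at h4
          omega
        have h6 := (N_eq_zero_of_small hw3 ht4 hJ'inv hJ'M).1 h5
        have h7 := finrank_map_add (N t) J'
        refine (N_eq_zero_of_small hw3 ht4 (hJ'inv.map_N t) (hM' t)).2 ?_ _ ⟨f, hf, rfl⟩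
        omega
      have e1 : N (t * t) b1 = 1 := by
        rcases hinv1 _ hh2 b1 hb1 with h | h
        · exact absurd (by rw [hbh, h, hz b2 hb2, add_zero]) (hb0 _ hh1)
        · exact h
      have e2 : N (t * t) a1 = 1 := by
        rcases hinv1 _ hh2 a1 ha1 with h | h
        · exact absurd (by rw [hah, h, hz a2 ha2, add_zero]) (ha0 _ hh1)
        · exact h
      rcases hkey _ hh1 hh2 (by rw [e1, e2]) with ⟨-, c⟩ | ⟨c, -⟩
      · exact c (hz a2 ha2)
      · exact c (hz b2 hb2)
    · -- no element of order 4: three involutions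
      push Not at ht
      obtain ⟨k0, hk1, hk2, hk3⟩ : ∃ k : H, k ≠ 1 ∧ k * k = 1 ∧ k ≠ h0 := by
        obtain ⟨P, hP⟩ := Sylow.exists_subgroup_card_pow_prime (G := H) 2 (n := 2)
          (by rw [Nat.card_eq_fintype_card, hn]; norm_num)
        have h5 : ∃ k ∈ P, k ≠ 1 ∧ k ≠ h0 := by
          by_contra hcon
          push Not at hcon
          have h6 : (P : Set H) ⊆ (({1, h0} : Finset H) : Set H) := by
            intro k hk
            by_cases hk1 : k = 1
            · simp [hk1]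
            · simp [hcon k hk hk1]
          have h7 := Set.ncard_le_ncard h6 (Finset.finite_toSet _)
          rw [Set.ncard_coe_finset] at h7
          have h8 : (({1, h0} : Finset H)).card ≤ 2 := card_le_two
          have h9 : (P : Set H).ncard = Nat.card P := rfl
          rw [h9, hP] at h7
          omega
        obtain ⟨k, hkP, hk1, hk2⟩ := h5
        refine ⟨k, hk1, ?_, hk2⟩
        have h6 : orderOf k ∣ 4 := by
          have := Subgroup.orderOf_dvd_natCard P hkP
          rw [hP] at this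
          exact this
        have h7 : orderOf k ≤ 4 := Nat.le_of_dvd (by norm_num) h6
        have h8 := ht k
        have h9 : orderOf k ≠ 1 := fun h => hk1 (orderOf_eq_one_iff.mp h)
        have h10 : orderOf k = 2 := by
          have := orderOf_pos k
          interval_cases h : orderOf k
          · exact absurd rfl h9
          · rfl
          · omega
          · exact absurd rfl h8
        rw [← pow_two, ← h10, pow_orderOf_eq_one]
      obtain ⟨h1, hh0⟩ : ∃ h1 : H, h1 = h0 * k0 := ⟨_, rfl⟩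
      have hh1' : h1 ≠ 1 := by
        intro h
        rw [hh0] at h
        apply hk3
        have : k0 = h0⁻¹ := (inv_eq_of_mul_eq_one_right h).symm
        rw [this, inv_eq_of_mul_eq_one_left hh2]
      have hh2' : h1 * h1 = 1 := by
        rw [hh0, mul_mul_mul_comm, hh2, hk2, one_mul]
      have hpow : ∀ k : H, k * k = 1 → k ^ 4 = 1 := by
        intro k hk
        calc k ^ 4 = (k * k) * (k * k) := by simp [pow_succ, mul_assoc]
          _ = 1 := by rw [hk, one_mul]
      have hsum : ∀ f : Fn H, N h0 (N k0 f) = N h0 f + N k0 f + N h1 f := by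
        intro f
        simp only [N_apply, map_add, tr_tr, hh0]
        have : f + tr h0 f + (f + tr k0 f) + (f + tr (h0 * k0) f) =
          (f + f) + (f + tr k0 f + (tr h0 f + tr (h0 * k0) f)) := by abel
        rw [this, add_self, zero_add]
        abel
      have hsumb : N h0 b1 + N k0 b1 + N h1 b1 = 0 := by
        rw [← hsum]; exact hsecond1 k0 h0 hk2 b1 hb1
      have hsuma : N h0 a1 + N k0 a1 + N h1 a1 = 0 := by
        rw [← hsum]; exact hsecond1 k0 h0 hk2 a1 ha1
      have h111 : (1 : Fn H) + 1 + 1 ≠ 0 := by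
        intro h
        exact one_add_one_add_one_ne (congrFun h 1)
      -- consequence of a vanishing part
      have hfin : ∀ (f2 g2 f1 : Fn H), f2 ∈ J' → g2 ∈ J' → f1 ∈ J1 →
          (∀ h : H, h ≠ 1 → h * h = 1 → N h f1 + N h f2 ≠ 0) →
          N h0 f1 + N k0 f1 + N h1 f1 = 0 →
          ∀ h : H, h * h = 1 → N h f2 = 0 → N h g2 ≠ 0 → False := by
        intro f2 g2 f1 hf2 hg2 hf1 hne hs h hh hf0 hg0
        have h5 : J'.map (N h) ≤ J' ⊓ LinearMap.ker (N h) := by
          rintro _ ⟨f, hf, rfl⟩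
          exact ⟨N_mem (hJ'inv h) hf, N_N hh f⟩
        have h6 : finrank (ZMod 2) (J'.map (N h)) ≠ 0 := by
          intro h7
          have h8 := Submodule.finrank_eq_zero.mp h7
          have h9 : N h g2 ∈ J'.map (N h) := ⟨g2, hg2, rfl⟩
          rw [h8, Submodule.mem_bot] at h9
          exact hg0 h9
        have h7 := hsmall' h hh
        obtain ⟨m, hm⟩ := heven' h
        have h8 := finrank_map_add (N h) J'
        have h9 : J'.map (N h) = J' ⊓ LinearMap.ker (N h) :=
          Submodule.eq_of_le_of_finrank_eq h5 (by omega)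
        have h10 : f2 ∈ J'.map (N h) := by rw [h9]; exact ⟨hf2, hf0⟩
        obtain ⟨c, hc, hc2⟩ := h10
        have h11 : ∀ k : H, k * k = 1 → N k f2 = 0 := by
          intro k hk
          rw [← hc2]
          exact hsecond h k hh (hpow k hk) c hc
        have h12 : ∀ k : H, k ≠ 1 → k * k = 1 → N k f1 = 1 := by
          intro k hk hk2
          rcases hinv1 k hk2 f1 hf1 with h | h
          · exact absurd (by rw [h, h11 k hk2, add_zero]) (hne k hk hk2)
          · exact h
        rw [h12 h0 hh1 hh2, h12 k0 hk1 hk2, h12 h1 hh1' hh2'] at hs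
        exact h111 hs
      have hbne : ∀ h : H, h ≠ 1 → h * h = 1 → N h b1 + N h b2 ≠ 0 := by
        intro h hh _; rw [← hbh]; exact hb0 h hh
      have hane : ∀ h : H, h ≠ 1 → h * h = 1 → N h a1 + N h a2 ≠ 0 := by
        intro h hh _; rw [← hah]; exact ha0 h hh
      have hdone : ∀ h : H, h ≠ 1 → h * h = 1 → N h b1 = N h a1 → False := by
        intro h hh hh2 heq
        rcases hkey h hh hh2 heq with ⟨c1, c2⟩ | ⟨c1, c2⟩
        · exact hfin b2 a2 b1 hb2 ha2 hb1 hbne hsumb h hh2 c1 c2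
        · exact hfin a2 b2 a1 ha2 hb2 ha1 hane hsuma h hh2 c2 c1
      have hdiff : ∀ h : H, h ≠ 1 → h * h = 1 → N h b1 + N h a1 = 1 := by
        intro h hh hh2
        have hne := hdone h hh hh2
        rcases hinv1 h hh2 b1 hb1 with c1 | c1 <;> rcases hinv1 h hh2 a1 ha1 with c2 | c2
        · exact absurd (by rw [c1, c2]) hne
        · rw [c1, c2, zero_add]
        · rw [c1, c2, add_zero]
        · exact absurd (by rw [c1, c2]) hne
      have hfinal : (1 : Fn H) + 1 + 1 = 0 := by
        have e1 : (1 : Fn H) + 1 + 1 = (N h0 b1 + N h0 a1) + (N k0 b1 + N k0 a1) +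
            (N h1 b1 + N h1 a1) := by
          rw [hdiff h0 hh1 hh2, hdiff k0 hk1 hk2, hdiff h1 hh1' hh2']
        have e2 : (N h0 b1 + N h0 a1) + (N k0 b1 + N k0 a1) + (N h1 b1 + N h1 a1) =
            (N h0 b1 + N k0 b1 + N h1 b1) + (N h0 a1 + N k0 a1 + N h1 a1) := by abel
        rw [e1, e2, hsumb, hsuma, add_zero]
      exact h111 hfinal

end Pool.Agent.Lib.MP_91138c_lc
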